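import Pool.Agent.Helper15.Rado.Defs

/-!
# Rado's problem: the fractional version

For every finite family `F` of squares there are weights `x Q ≥ 0` with total weight at most `1`
at every point and with `∑ x Q s_Q ^ 2 ≥ area F / 4`.
-/

open MeasureTheory Set Pool.Agent.Helper15.Rado
open scoped ENNReal NNReal

namespace Pool.Agent.Helper14.FracRado

/-- the union of the members of `F` which contain `p` -/
def star (F : Finset Sq) (p : ℝ × ℝ) : Set (ℝ × ℝ) := ⋃ Q ∈ F, ⋃ (_ : p ∈ Q.set), Q.set

theorem measurableSet_sq (Q : Sq) : MeasurableSet Q.set :=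
  measurableSet_Icc.prod measurableSet_Icc

theorem measurableSet_star (F : Finset Sq) (p : ℝ × ℝ) : MeasurableSet (star F p) := by
  classical
  apply Finset.measurableSet_biUnion
  intro Q _
  exact MeasurableSet.iUnion fun _ => measurableSet_sq Q

theorem measurableSet_union (F : Finset Sq) : MeasurableSet (⋃ Q ∈ F, Q.set) :=
  Finset.measurableSet_biUnion _ fun Q _ => measurableSet_sq Q

/-- the closed ball of radius `t` for the maximum norm -/
theorem ball_eq (p : ℝ × ℝ) (t : ℝ) :
    Metric.closedBall p t = Icc (p.1 - t) (p.1 + t) ×ˢ Icc (p.2 - t) (p.2 + t) := by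
  rw [← Real.closedBall_eq_Icc, ← Real.closedBall_eq_Icc, closedBall_prod_same]

theorem volume_ball (p : ℝ × ℝ) {t : ℝ} (ht : 0 ≤ t) :
    volume (Metric.closedBall p t) = ENNReal.ofReal (4 * t ^ 2) := by
  rw [ball_eq, Measure.volume_eq_prod, Measure.prod_prod, Real.volume_Icc, Real.volume_Icc,
    ← ENNReal.ofReal_mul (by linarith)]
  congr 1
  ring

theorem volume_sq (Q : Sq) : volume Q.set = ENNReal.ofReal (Q.s ^ 2) := by
  rw [Sq.set, Measure.volume_eq_prod, Measure.prod_prod, Real.volume_Icc, Real.volume_Icc,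
    ← ENNReal.ofReal_mul (by linarith [Q.pos])]
  congr 1
  ring

theorem sq_subset_ball {Q : Sq} {p : ℝ × ℝ} (hp : p ∈ Q.set) :
    Q.set ⊆ Metric.closedBall p Q.s := by
  rw [ball_eq]
  rintro ⟨a, b⟩ ⟨⟨h1, h2⟩, h3, h4⟩
  obtain ⟨⟨k1, k2⟩, k3, k4⟩ := hp
  simp only at h1 h2 h3 h4
  exact ⟨⟨by simp only; linarith, by simp only; linarith⟩,
    by simp only; linarith, by simp only; linarith⟩

theorem convex_sq (Q : Sq) : Convex ℝ Q.set := (convex_Icc _ _).prod (convex_Icc _ _)

theorem star_mono_aux (F : Finset Sq) (p : ℝ × ℝ) {t u : ℝ} (ht : 0 < t) (htu : t ≤ u) :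
    AffineMap.homothety p (t / u) '' (star F p ∩ Metric.closedBall p u) ⊆
      star F p ∩ Metric.closedBall p t := by
  have hu : 0 < u := ht.trans_le htu
  have h0 : 0 ≤ t / u := (div_pos ht hu).le
  have h1 : t / u ≤ 1 := (div_le_one hu).2 htu
  rintro _ ⟨q, ⟨hq, hb⟩, rfl⟩
  constructor
  · simp only [star, mem_iUnion, exists_prop] at hq ⊢
    obtain ⟨Q, hQ, hp, hqQ⟩ := hq
    refine ⟨Q, hQ, hp, ?_⟩
    rw [AffineMap.homothety_eq_lineMap]
    exact (convex_sq Q).lineMap_mem hp hqQ ⟨h0, h1⟩
  · rw [Metric.mem_closedBall, AffineMap.homothety_apply, dist_eq_norm]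
    rw [Metric.mem_closedBall, dist_eq_norm] at hb
    have : ((t / u) • (q -ᵥ p) +ᵥ p) - p = (t / u) • (q - p) := by
      simp [vsub_eq_sub, vadd_eq_add]
    rw [this, norm_smul, Real.norm_of_nonneg h0]
    calc t / u * ‖q - p‖ ≤ t / u * u := mul_le_mul_of_nonneg_left hb h0
      _ = t := div_mul_cancel₀ _ hu.ne'

/-- monotonicity of the relative measure of a star-shaped set -/
theorem star_mono (F : Finset Sq) (p : ℝ × ℝ) {t u : ℝ} (ht : 0 < t) (htu : t ≤ u) :
    volume.real (star F p ∩ Metric.closedBall p u) / (4 * u ^ 2) ≤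
      volume.real (star F p ∩ Metric.closedBall p t) / (4 * t ^ 2) := by
  have hu : 0 < u := ht.trans_le htu
  have hfin : ∀ v : ℝ, 0 ≤ v → volume (star F p ∩ Metric.closedBall p v) ≠ ∞ := fun v hv =>
    ((measure_mono inter_subset_right).trans_lt
      (by rw [volume_ball p hv]; exact ENNReal.ofReal_lt_top)).ne
  have h1 := Measure.addHaar_image_homothety (volume : Measure (ℝ × ℝ)) p (t / u)
    (star F p ∩ Metric.closedBall p u)
  have h2 := measure_mono (μ := (volume : Measure (ℝ × ℝ))) (star_mono_aux F p ht htu)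
  rw [h1] at h2
  have h3 : (t / u) ^ 2 * volume.real (star F p ∩ Metric.closedBall p u) ≤
      volume.real (star F p ∩ Metric.closedBall p t) := by
    have h4 := ENNReal.toReal_mono (hfin t ht.le) h2
    rw [ENNReal.toReal_mul, ENNReal.toReal_ofReal (abs_nonneg _), Module.finrank_prod,
      Module.finrank_self, abs_of_nonneg (by positivity)] at h4
    exact h4
  rw [div_le_div_iff₀ (by positivity) (by positivity)]
  have h5 : (t / u) ^ 2 * volume.real (star F p ∩ Metric.closedBall p u) * (4 * u ^ 2) =
      volume.real (star F p ∩ Metric.closedBall p u) * (4 * t ^ 2) := by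
    field_simp
  rw [← h5]
  exact mul_le_mul_of_nonneg_right h3 (by positivity)

/-- the induction statement -/
theorem frac_aux (F : Finset Sq) : ∃ x : Sq → ℝ, (∀ Q, 0 ≤ x Q) ∧
    (∑ Q ∈ F, x Q * Q.s ^ 2 = volume.real (⋃ Q ∈ F, Q.set) / 4) ∧
    ∀ p : ℝ × ℝ, ∀ t : ℝ, 0 < t → (∀ Q ∈ F, t ≤ Q.s) →
      ∑ Q ∈ F, (Q.set.indicator (fun _ => x Q) p) ≤
        volume.real (star F p ∩ Metric.closedBall p t) / (4 * t ^ 2) := by
  classical
  induction F using Finset.induction_on_min_value (fun Q : Sq => Q.s) with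
  | empty =>
    refine ⟨fun _ => 0, fun _ => le_rfl, by simp, ?_⟩
    intro p t ht _
    simp only [Finset.sum_empty]
    positivity
  | insert R F hR hmin ih =>
    obtain ⟨x, hx0, hxs, hxp⟩ := ih
    have hRs := R.pos
    have hfinU : volume (⋃ Q ∈ F, Q.set) ≠ ∞ := by
      refine ((measure_biUnion_finset_le F _).trans_lt ?_).ne
      exact ENNReal.sum_lt_top.2 fun Q _ => by rw [volume_sq]; exact ENNReal.ofReal_lt_top
    have hfinR : volume R.set ≠ ∞ := by rw [volume_sq]; exact ENNReal.ofReal_ne_top
    set c : ℝ := volume.real (R.set \ ⋃ Q ∈ F, Q.set) with hc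
    have hc0 : 0 ≤ c := measureReal_nonneg
    obtain ⟨y, hy0, hyR, hyF⟩ : ∃ y : Sq → ℝ, (∀ Q, 0 ≤ y Q) ∧ y R = c / (4 * R.s ^ 2) ∧
        ∀ Q ∈ F, y Q = x Q := by
      refine ⟨fun Q => if Q = R then c / (4 * R.s ^ 2) else x Q, ?_, ?_, ?_⟩
      · intro Q
        by_cases h : Q = R
        · simp only [h, if_true]; positivity
        · simp only [h, if_false]; exact hx0 Q
      · simp
      · intro Q hQ
        simp only [if_neg (fun h : Q = R => hR (h ▸ hQ))]
    refine ⟨y, hy0, ?_, ?_⟩
    · rw [Finset.sum_insert hR, hyR]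
      have h1 : ∑ Q ∈ F, y Q * Q.s ^ 2 = ∑ Q ∈ F, x Q * Q.s ^ 2 := by
        apply Finset.sum_congr rfl
        intro Q hQ
        rw [hyF Q hQ]
      rw [h1, hxs, Finset.set_biUnion_insert]
      have h2 : volume.real (R.set ∪ ⋃ Q ∈ F, Q.set) = volume.real (⋃ Q ∈ F, Q.set) + c := by
        rw [union_comm, ← union_diff_self, measureReal_union disjoint_sdiff_right
          ((measurableSet_sq R).diff (measurableSet_union F)) hfinU
          (ne_top_of_le_ne_top hfinR (measure_mono diff_subset))]
      rw [h2]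
      field_simp
      ring
    · intro p t ht htF
      rw [Finset.sum_insert hR]
      have h1 : ∑ Q ∈ F, (Q.set.indicator (fun _ => y Q) p) =
          ∑ Q ∈ F, (Q.set.indicator (fun _ => x Q) p) := by
        apply Finset.sum_congr rfl
        intro Q hQ
        rw [hyF Q hQ]
      rw [h1]
      by_cases hpR : p ∈ R.set
      · rw [indicator_of_mem hpR, hyR]
        have htR : t ≤ R.s := htF R (Finset.mem_insert_self _ _)
        refine le_trans ?_ (star_mono (insert R F) p ht htR)
        have h2 := hxp p R.s hRs hmin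
        have h3 : star (insert R F) p = star F p ∪ R.set := by
          simp only [star, Finset.set_biUnion_insert]
          rw [union_comm]
          congr 1
          ext q
          simp [hpR]
        have h4 : volume.real (star F p ∩ Metric.closedBall p R.s) + c ≤
            volume.real (star (insert R F) p ∩ Metric.closedBall p R.s) := by
          have hfb : volume (Metric.closedBall p R.s) ≠ ∞ := by
            rw [volume_ball p hRs.le]; exact ENNReal.ofReal_ne_top
          have hdis : Disjoint (star F p ∩ Metric.closedBall p R.s)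
              (R.set \ ⋃ Q ∈ F, Q.set) := by
            rw [Set.disjoint_left]
            rintro q ⟨h, -⟩ ⟨-, h'⟩
            apply h'
            simp only [star, mem_iUnion, exists_prop] at h ⊢
            obtain ⟨Q, hQ, -, hq⟩ := h
            exact ⟨Q, hQ, hq⟩
          rw [hc, ← measureReal_union hdis ((measurableSet_sq R).diff (measurableSet_union F))
            (ne_top_of_le_ne_top hfb (measure_mono inter_subset_right))
            (ne_top_of_le_ne_top hfinR (measure_mono diff_subset))]
          · apply measureReal_mono _ (ne_top_of_le_ne_top hfb (measure_mono inter_subset_right))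
            rintro q (⟨h, h'⟩ | h)
            · exact ⟨by rw [h3]; exact Or.inl h, h'⟩
            · exact ⟨by rw [h3]; exact Or.inr h.1, sq_subset_ball hpR h.1⟩
        calc c / (4 * R.s ^ 2) + ∑ Q ∈ F, (Q.set.indicator (fun _ => x Q) p)
            ≤ c / (4 * R.s ^ 2) +
              volume.real (star F p ∩ Metric.closedBall p R.s) / (4 * R.s ^ 2) := by gcongr
          _ = (volume.real (star F p ∩ Metric.closedBall p R.s) + c) / (4 * R.s ^ 2) := by ring
          _ ≤ _ := by gcongr
      · rw [indicator_of_notMem hpR, zero_add]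
        have h3 : star (insert R F) p = star F p := by
          simp only [star, Finset.set_biUnion_insert]
          ext q
          simp [hpR]
        rw [h3]
        exact hxp p t ht fun Q hQ => htF Q (Finset.mem_insert_of_mem hQ)

/-- **the fractional form of Rado's conjecture** -/
theorem fractional (F : Finset Sq) : ∃ x : Sq → ℝ, (∀ Q, 0 ≤ x Q) ∧
    (∀ p : ℝ × ℝ, ∑ Q ∈ F, (Q.set.indicator (fun _ => x Q) p) ≤ 1) ∧
    area F / 4 ≤ ∑ Q ∈ F, x Q * Q.s ^ 2 := by
  classical
  obtain ⟨x, h1, h2, h3⟩ := frac_aux F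
  refine ⟨x, h1, ?_, h2.ge⟩
  intro p
  rcases F.eq_empty_or_nonempty with rfl | hF
  · simp
  · obtain ⟨R, hR, hmin⟩ := F.exists_min_image (fun Q => Q.s) hF
    have hRs := R.pos
    refine (h3 p R.s hRs hmin).trans ?_
    rw [div_le_one (by positivity)]
    have := ENNReal.toReal_mono (by rw [volume_ball p hRs.le]; exact ENNReal.ofReal_ne_top)
      (measure_mono (μ := (volume : Measure (ℝ × ℝ)))
        (inter_subset_right : star F p ∩ Metric.closedBall p R.s ⊆ _))
    rwa [volume_ball p hRs.le, ENNReal.toReal_ofReal (by positivity)] at this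

end Pool.Agent.Helper14.FracRado
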