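import Mathlib

/-!
# The constant for two side lengths
-/

namespace Pool.Agent.Helper14.FracRado

/-- the constant for two side lengths `b ≤ a` with ratio `μ = b / a ≤ 1` -/
noncomputable def kap2 (μ : ℝ) : ℝ :=
  max (37 / 200) (max (μ / (2 * (1 + μ)))
    (if μ ≤ 1 / 2 then μ / 4 + (1 - μ) ^ 2 / (4 - 2 * μ + 3 * μ ^ 2) else 0))

end Pool.Agent.Helper14.FracRado
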