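import Pool.Agent.Helper14.FracRado.Main

/-!
# Rado's conjecture for families all of whose members meet a common horizontal line
-/

open MeasureTheory Set Pool.Agent.Helper15.Rado
open scoped ENNReal NNReal

namespace Pool.Agent.Helper14.FracRado

section order

variable {V : Type*}

theorem colorable_of_order [Fintype V] {G : SimpleGraph V} (f : V → ℝ)
    (hf : ∀ u v w, f u ≤ f w → f v ≤ f w → G.Adj u w → G.Adj v w → u ≠ v → G.Adj u v) :
    G.Colorable G.cliqueNum := by
  classical
  have key : ∀ t : Finset V, ∃ c : V → ℕ, (∀ v ∈ t, c v < G.cliqueNum) ∧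
      ∀ u ∈ t, ∀ v ∈ t, G.Adj u v → c u ≠ c v := by
    intro t
    induction t using Finset.induction_on_max_value f with
    | empty => exact ⟨fun _ => 0, by simp, by simp⟩
    | insert a t ha hmax ih =>
      obtain ⟨c, hc, hcp⟩ := ih
      set N := t.filter (fun v => G.Adj v a) with hN
      have hcl : G.IsClique ((insert a N : Finset V) : Set V) := by
        intro u hu v hv huv
        simp only [Finset.coe_insert, Set.mem_insert_iff, Finset.mem_coe] at hu hv
        rcases hu with rfl | hu <;> rcases hv with rfl | hv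
        · exact absurd rfl huv
        · exact (Finset.mem_filter.1 hv).2.symm
        · exact (Finset.mem_filter.1 hu).2
        · have h1 := Finset.mem_filter.1 hu
          have h2 := Finset.mem_filter.1 hv
          exact hf u v a (hmax u h1.1) (hmax v h2.1) h1.2 h2.2 huv
      have hcard : (insert a N).card ≤ G.cliqueNum := hcl.card_le_cliqueNum
      have haN : a ∉ N := fun h => ha (Finset.mem_filter.1 h).1
      rw [Finset.card_insert_of_notMem haN] at hcard
      obtain ⟨q, hq, hq'⟩ : ∃ q ∈ Finset.range G.cliqueNum, q ∉ N.image c := by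
        by_contra hcon
        push Not at hcon
        have h1 : Finset.range G.cliqueNum ⊆ N.image c := fun q hq => hcon q hq
        have h2 := Finset.card_le_card h1
        rw [Finset.card_range] at h2
        have h3 := Finset.card_image_le (s := N) (f := c)
        omega
      rw [Finset.mem_range] at hq
      have hne : ∀ v ∈ t, v ≠ a := fun v hv h => ha (h ▸ hv)
      refine ⟨Function.update c a q, ?_, ?_⟩
      · intro v hv
        rw [Finset.mem_insert] at hv
        rcases hv with rfl | hv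
        · simpa using hq
        · rw [Function.update_of_ne (hne v hv)]
          exact hc v hv
      · intro u hu v hv huv
        rw [Finset.mem_insert] at hu hv
        rcases hu with rfl | hu <;> rcases hv with rfl | hv
        · exact absurd huv (G.loopless.irrefl _)
        · rw [Function.update_self, Function.update_of_ne (hne v hv)]
          rintro rfl
          exact hq' (Finset.mem_image_of_mem c (Finset.mem_filter.2 ⟨hv, huv.symm⟩))
        · rw [Function.update_self, Function.update_of_ne (hne u hu)]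
          rintro rfl
          exact hq' (Finset.mem_image_of_mem c (Finset.mem_filter.2 ⟨hu, huv⟩))
        · rw [Function.update_of_ne (hne v hv), Function.update_of_ne (hne u hu)]
          exact hcp u hu v hv huv
  obtain ⟨c, hc, hcp⟩ := key Finset.univ
  exact ⟨SimpleGraph.Coloring.mk (fun v => ⟨c v, hc v (Finset.mem_univ v)⟩) (by
    intro u v huv h
    exact hcp u (Finset.mem_univ u) v (Finset.mem_univ v) huv (by simpa using h))⟩

/-- a finite graph with a perfect elimination ordering is perfect -/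
theorem perfect_of_order [Fintype V] {G : SimpleGraph V} (f : V → ℝ)
    (hf : ∀ u v w, f u ≤ f w → f v ≤ f w → G.Adj u w → G.Adj v w → u ≠ v → G.Adj u v) :
    IsPerfect G := by
  classical
  intro s
  apply le_antisymm
  · rw [SimpleGraph.chromaticNumber_le_iff_colorable]
    apply colorable_of_order (fun v : s => f v.1)
    intro u v w h1 h2 h3 h4 h5
    have := hf u.1 v.1 w.1 h1 h2 (by simpa using h3) (by simpa using h4)
      (fun h => h5 (Subtype.ext h))
    simpa using this
  · obtain ⟨t, ht⟩ := (G.induce s).exists_isNClique_cliqueNum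
    have := ht.isClique.card_le_chromaticNumber
    rwa [ht.card_eq] at this

end order

/-- the translate of `Q` standing on the line `y = c` -/
def up (c : ℝ) (Q : Sq) : Sq := ⟨Q.x, c, Q.s, Q.pos⟩

/-- the translate of `Q` hanging from the line `y = c` -/
def dn (c : ℝ) (Q : Sq) : Sq := ⟨Q.x, c - Q.s, Q.s, Q.pos⟩

theorem up_perfect (c : ℝ) (P : Finset Sq) (hP : ∀ Q ∈ P, Q.y = c) :
    IsPerfect (overlapGraph P) := by
  classical
  apply perfect_of_order (fun Q => Q.1.x)
  intro u v w h1 h2 h3 h4 h5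
  refine ⟨h5, ?_⟩
  have k3 := ov_of_not_disjoint h3.2
  have k4 := ov_of_not_disjoint h4.2
  obtain ⟨⟨a1, a2⟩, -⟩ := k3
  obtain ⟨⟨b1, b2⟩, -⟩ := k4
  have hu := u.1.pos
  have hv := v.1.pos
  have hw := w.1.pos
  have yu := hP u.1 u.2
  have yv := hP v.1 v.2
  rw [interior_set, interior_set, Set.not_disjoint_iff]
  obtain ⟨a, ha1, ha2⟩ := exists_between
    (show w.1.x < min (u.1.x + u.1.s) (v.1.x + v.1.s) by
      rw [lt_min_iff]; exact ⟨by linarith, by linarith⟩)
  obtain ⟨b, hb1, hb2⟩ := exists_between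
    (show c < min (c + u.1.s) (c + v.1.s) by
      rw [lt_min_iff]; exact ⟨by linarith, by linarith⟩)
  rw [lt_min_iff] at ha2 hb2
  refine ⟨(a, b), ⟨⟨?_, ?_⟩, ?_, ?_⟩, ⟨?_, ?_⟩, ?_, ?_⟩ <;> simp only [yu, yv] <;> linarith

/-- For every family `F` and every `c` there is a subfamily with nonoverlapping projections to the
`x`-axis whose area is at least a quarter of the area of the union of the translates of the
members of `F` which stand on or hang from the line `y = c`. -/
theorem strip_line (c : ℝ) (F : Finset Sq) :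
    ∃ G ⊆ F, (∀ P ∈ G, ∀ Q ∈ G, P ≠ Q → P.x + P.s ≤ Q.x ∨ Q.x + Q.s ≤ P.x) ∧
      area (F.image (up c) ∪ (F.image (up c)).image (dn c)) / 4 ≤ ∑ Q ∈ G, Q.s ^ 2 := by
  classical
  set U := F.image (up c) with hU
  set D := U.image (dn c) with hD
  have hUy : ∀ Q ∈ U, Q.y = c := by
    intro Q hQ
    rw [hU, Finset.mem_image] at hQ
    obtain ⟨Q, _, rfl⟩ := hQ
    rfl
  have hdis : Disjoint U D := by
    rw [Finset.disjoint_left]
    intro Q hQ hQ'
    rw [hD, Finset.mem_image] at hQ'
    obtain ⟨R, _, rfl⟩ := hQ'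
    have h1 := hUy _ hQ
    have h2 : (dn c R).y = c - R.s := rfl
    have := R.pos
    rw [h2] at h1
    linarith
  have hinj : Set.InjOn (dn c) (U : Set Sq) := by
    intro P hP Q hQ h
    have h1 := hUy P hP
    have h2 := hUy Q hQ
    cases P
    cases Q
    simp only [dn, Sq.mk.injEq] at h h1 h2 ⊢
    exact ⟨h.1, by rw [h1, h2], h.2.2⟩
  obtain ⟨x, hx0, hxp, hxs⟩ := fractional (U ∪ D)
  have hsum : ∀ g : Sq → ℝ, ∑ Q ∈ U ∪ D, g Q = ∑ Q ∈ U, (g Q + g (dn c Q)) := by
    intro g
    rw [Finset.sum_union hdis, hD, Finset.sum_image hinj, ← Finset.sum_add_distrib]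
  obtain ⟨S, hS, hSw⟩ := exists_indep (up_perfect c U hUy)
    (x := fun Q => x Q.1 + x (dn c Q.1)) (w := fun Q => Q.1.s ^ 2)
    (fun Q => add_nonneg (hx0 Q.1) (hx0 _)) (fun Q => sq_nonneg _) (by
      intro C hC
      rcases C.eq_empty_or_nonempty with rfl | hne
      · simp
      · obtain ⟨p, hp⟩ := helly_aux (C := C.map (Function.Embedding.subtype _))
          (by simpa using hne) (by
            intro P hP Q hQ
            simp only [Finset.mem_map, Function.Embedding.subtype_apply] at hP hQ
            obtain ⟨P, hP, rfl⟩ := hP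
            obtain ⟨Q, hQ, rfl⟩ := hQ
            by_cases h : P = Q
            · subst h; exact ov_self _
            · exact ov_of_not_disjoint (hC hP hQ h).2)
        have hmem : ∀ Q ∈ C.map (Function.Embedding.subtype _), Q ∈ U := by
          intro Q hQ
          simp only [Finset.mem_map, Function.Embedding.subtype_apply] at hQ
          obtain ⟨Q, _, rfl⟩ := hQ
          exact Q.2
        calc ∑ Q ∈ C, (x Q.1 + x (dn c Q.1)) =
              ∑ Q ∈ C.map (Function.Embedding.subtype _), (x Q + x (dn c Q)) := by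
              rw [Finset.sum_map]; rfl
          _ = ∑ Q ∈ C.map (Function.Embedding.subtype _), (Q.set.indicator (fun _ => x Q) (p.1, c)
                + (dn c Q).set.indicator (fun _ => x (dn c Q)) (p.1, c)) := by
              apply Finset.sum_congr rfl
              intro Q hQ
              have h1 := hp Q hQ
              have h2 := hUy Q (hmem Q hQ)
              have h3 := Q.pos
              rw [indicator_of_mem, indicator_of_mem]
              · refine ⟨h1.1, ?_, ?_⟩
                · show c - Q.s ≤ c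
                  linarith
                · show c ≤ c - Q.s + Q.s
                  linarith
              · refine ⟨h1.1, ?_, ?_⟩
                · show Q.y ≤ c
                  linarith
                · show c ≤ Q.y + Q.s
                  linarith
          _ ≤ ∑ Q ∈ U, (Q.set.indicator (fun _ => x Q) (p.1, c)
                + (dn c Q).set.indicator (fun _ => x (dn c Q)) (p.1, c)) := by
              apply Finset.sum_le_sum_of_subset_of_nonneg hmem
              intro Q _ _
              exact add_nonneg (indicator_nonneg (fun _ _ => hx0 _) _)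
                (indicator_nonneg (fun _ _ => hx0 _) _)
          _ = ∑ Q ∈ U ∪ D, (Q.set.indicator (fun _ => x Q) (p.1, c)) := (hsum _).symm
          _ ≤ 1 := hxp _)
  -- representatives
  have hrep : ∀ Q : Sq, ∃ R : Sq, Q ∈ U → R ∈ F ∧ up c R = Q := by
    intro Q
    by_cases hQ : Q ∈ U
    · have hQ' := hQ
      rw [hU, Finset.mem_image] at hQ'
      obtain ⟨R, hR, hRQ⟩ := hQ'
      exact ⟨R, fun _ => ⟨hR, hRQ⟩⟩
    · exact ⟨Q, fun h => absurd h hQ⟩
  choose rep hrep using hrep
  have hrx : ∀ Q ∈ U, (rep Q).x = Q.x ∧ (rep Q).s = Q.s := by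
    intro Q hQ
    have h := (hrep Q hQ).2
    constructor
    · conv_rhs => rw [← h]
      rfl
    · conv_rhs => rw [← h]
      rfl
  set T : Finset Sq := S.map (Function.Embedding.subtype _) with hT
  have hTU : ∀ Q ∈ T, Q ∈ U := by
    intro Q hQ
    simp only [hT, Finset.mem_map, Function.Embedding.subtype_apply] at hQ
    obtain ⟨Q, _, rfl⟩ := hQ
    exact Q.2
  have hTno : ∀ P ∈ T, ∀ Q ∈ T, P ≠ Q → P.x + P.s ≤ Q.x ∨ Q.x + Q.s ≤ P.x := by
    intro P hP Q hQ hPQ
    simp only [hT, Finset.mem_map, Function.Embedding.subtype_apply] at hP hQ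
    obtain ⟨P, hP, rfl⟩ := hP
    obtain ⟨Q, hQ, rfl⟩ := hQ
    by_contra hcon
    push Not at hcon
    refine hS hP hQ (fun h => hPQ (by rw [h])) ⟨fun h => hPQ (by rw [h]), ?_⟩
    rw [interior_set, interior_set, Set.not_disjoint_iff]
    have hp1 := P.1.pos
    have hq1 := Q.1.pos
    obtain ⟨a, ha1, ha2⟩ := exists_between
      (show max P.1.x Q.1.x < min (P.1.x + P.1.s) (Q.1.x + Q.1.s) by
        simp only [max_lt_iff, lt_min_iff]
        refine ⟨⟨by linarith, hcon.1⟩, hcon.2, by linarith⟩)
    obtain ⟨b, hb1, hb2⟩ := exists_between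
      (show c < min (c + P.1.s) (c + Q.1.s) by
        rw [lt_min_iff]; exact ⟨by linarith, by linarith⟩)
    simp only [max_lt_iff, lt_min_iff] at ha1 ha2 hb2
    have yp := hUy P.1 P.2
    have yq := hUy Q.1 Q.2
    refine ⟨(a, b), ⟨⟨ha1.1, ha2.1⟩, ?_, ?_⟩, ⟨ha1.2, ha2.2⟩, ?_, ?_⟩ <;>
      simp only [yp, yq] <;> linarith
  have hrinj : Set.InjOn rep (T : Set Sq) := by
    intro P hP Q hQ h
    rw [← (hrep P (hTU P hP)).2, ← (hrep Q (hTU Q hQ)).2, h]
  have hno : ∀ P ∈ T.image rep, ∀ Q ∈ T.image rep, P ≠ Q →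
      P.x + P.s ≤ Q.x ∨ Q.x + Q.s ≤ P.x := by
    intro P hP Q hQ hPQ
    rw [Finset.mem_image] at hP hQ
    obtain ⟨P, hP, rfl⟩ := hP
    obtain ⟨Q, hQ, rfl⟩ := hQ
    rw [(hrx P (hTU P hP)).1, (hrx P (hTU P hP)).2, (hrx Q (hTU Q hQ)).1, (hrx Q (hTU Q hQ)).2]
    exact hTno P hP Q hQ (fun h => hPQ (by rw [h]))
  refine ⟨T.image rep, ?_, hno, ?_⟩
  · intro Q hQ
    rw [Finset.mem_image] at hQ
    obtain ⟨Q, hQ, rfl⟩ := hQ
    exact (hrep Q (hTU Q hQ)).1
  · calc area (U ∪ D) / 4 ≤ ∑ Q ∈ U ∪ D, x Q * Q.s ^ 2 := hxs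
      _ = ∑ Q ∈ U, (x Q + x (dn c Q)) * Q.s ^ 2 := by
          rw [hsum]
          apply Finset.sum_congr rfl
          intro Q _
          have : (dn c Q).s = Q.s := rfl
          rw [this]; ring
      _ = ∑ Q : {Q // Q ∈ U}, (x Q.1 + x (dn c Q.1)) * Q.1.s ^ 2 := by
          rw [← Finset.sum_attach, Finset.univ_eq_attach]
      _ ≤ ∑ Q ∈ S, Q.1.s ^ 2 := hSw
      _ = ∑ Q ∈ T, Q.s ^ 2 := by
          rw [hT, Finset.sum_map]; rfl
      _ = ∑ Q ∈ T.image rep, Q.s ^ 2 := by
          rw [Finset.sum_image hrinj]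
          apply Finset.sum_congr rfl
          intro Q hQ
          rw [(hrx Q (hTU Q hQ)).2]

theorem not_ov_of_proj {P Q : Sq} (h : P.x + P.s ≤ Q.x ∨ Q.x + Q.s ≤ P.x) : ¬ ov P Q := by
  intro hov
  rcases h with h | h
  · linarith [hov.1.2]
  · linarith [hov.1.1]

theorem line_main (c : ℝ) (F : Finset Sq) (hF : ∀ Q ∈ F, Q.y ≤ c ∧ c ≤ Q.y + Q.s) :
    ∃ G ⊆ F, (∀ P ∈ G, ∀ Q ∈ G, P ≠ Q → P.x + P.s ≤ Q.x ∨ Q.x + Q.s ≤ P.x) ∧
      area F / 4 ≤ area G := by
  obtain ⟨G, hGF, hno, hG⟩ := strip_line c F
  refine ⟨G, hGF, hno, ?_⟩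
  have harea : area F ≤ area (F.image (up c) ∪ (F.image (up c)).image (dn c)) := by
    unfold area
    apply ENNReal.toReal_mono (volume_ne_top _)
    apply measure_mono
    intro q hq
    simp only [mem_iUnion, exists_prop] at hq ⊢
    obtain ⟨Q, hQ, hq⟩ := hq
    obtain ⟨h1, h2⟩ := hF Q hQ
    obtain ⟨hq1, hq2, hq3⟩ := hq
    have hUQ : up c Q ∈ F.image (up c) := Finset.mem_image_of_mem _ hQ
    rcases le_total c q.2 with h | h
    · refine ⟨up c Q, Finset.mem_union_left _ hUQ, hq1, h, ?_⟩
      show q.2 ≤ c + Q.s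
      linarith
    · refine ⟨dn c (up c Q), Finset.mem_union_right _ (Finset.mem_image_of_mem _ hUQ), hq1,
        ?_, ?_⟩
      · show c - Q.s ≤ q.2
        linarith
      · show q.2 ≤ c - Q.s + Q.s
        linarith
  have h1 := area_of_nonOv (fun P hP Q hQ hPQ => not_ov_of_proj (hno P hP Q hQ hPQ))
  linarith

end Pool.Agent.Helper14.FracRado
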