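import Pool.Agent.Helper14.FracRado.Ratio

/-!
# Families all of whose members meet a set of widely spaced horizontal lines
-/

open MeasureTheory Set Pool.Agent.Helper15.Rado
open scoped ENNReal NNReal

namespace Pool.Agent.Helper14.FracRado

theorem line_enn (c : ℝ) (F : Finset Sq) (hF : ∀ Q ∈ F, Q.y ≤ c ∧ c ≤ Q.y + Q.s) :
    ∃ G ⊆ F, (∀ P ∈ G, ∀ Q ∈ G, P ≠ Q → ¬ ov P Q) ∧
      volume (⋃ Q ∈ F, Q.set) ≤ 4 * ∑ Q ∈ G, ENNReal.ofReal (Q.s ^ 2) := by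
  obtain ⟨G, hGF, hno, hG⟩ := strip_line c F
  refine ⟨G, hGF, fun P hP Q hQ hPQ => not_ov_of_proj (hno P hP Q hQ hPQ), ?_⟩
  have harea : area F ≤ area (F.image (up c) ∪ (F.image (up c)).image (dn c)) := by
    unfold area
    apply ENNReal.toReal_mono (volume_ne_top _)
    apply measure_mono
    intro q hq
    simp only [mem_iUnion, exists_prop] at hq ⊢
    obtain ⟨Q, hQ, hq⟩ := hq
    obtain ⟨h1, h2⟩ := hF Q hQ
    obtain ⟨hq1, hq2, hq3⟩ := hq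
    have hUQ : up c Q ∈ F.image (up c) := Finset.mem_image_of_mem _ hQ
    rcases le_total c q.2 with h | h
    · refine ⟨up c Q, Finset.mem_union_left _ hUQ, hq1, h, ?_⟩
      show q.2 ≤ c + Q.s
      linarith
    · refine ⟨dn c (up c Q), Finset.mem_union_right _ (Finset.mem_image_of_mem _ hUQ), hq1,
        ?_, ?_⟩
      · show c - Q.s ≤ q.2
        linarith
      · show q.2 ≤ c - Q.s + Q.s
        linarith
  rw [← ENNReal.ofReal_toReal (volume_ne_top F)]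
  have h1 : (volume (⋃ Q ∈ F, Q.set)).toReal ≤ 4 * ∑ Q ∈ G, Q.s ^ 2 := by
    change area F ≤ _
    linarith
  calc ENNReal.ofReal _ ≤ ENNReal.ofReal (4 * ∑ Q ∈ G, Q.s ^ 2) := ENNReal.ofReal_le_ofReal h1
    _ = 4 * ∑ Q ∈ G, ENNReal.ofReal (Q.s ^ 2) := by
        rw [ENNReal.ofReal_mul (by norm_num), ENNReal.ofReal_sum_of_nonneg
          (fun Q _ => sq_nonneg _)]
        congr 1
        norm_num

theorem lines_main {c h : ℝ} (hh : 0 < h) (F : Finset Sq)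
    (hF : ∀ Q ∈ F, Q.s ≤ h ∧ ∃ k : ℤ, Q.y ≤ c + 2 * h * k ∧ c + 2 * h * k ≤ Q.y + Q.s) :
    ∃ G ⊆ F, NonOv G ∧ area F / 4 ≤ area G := by
  classical
  have hne : ∀ k : ℤ, ∃ G ⊆ F.filter (fun Q => Q.y ≤ c + 2 * h * k ∧ c + 2 * h * k ≤ Q.y + Q.s),
      (∀ P ∈ G, ∀ Q ∈ G, P ≠ Q → ¬ ov P Q) ∧
      volume (⋃ Q ∈ F.filter (fun Q => Q.y ≤ c + 2 * h * k ∧ c + 2 * h * k ≤ Q.y + Q.s), Q.set) ≤
        4 * ∑ Q ∈ G, ENNReal.ofReal (Q.s ^ 2) := fun k =>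
    line_enn (c + 2 * h * k) _ fun Q hQ => (Finset.mem_filter.1 hQ).2
  choose G hGF hGno hG using hne
  have hGs : ∀ k, ∀ Q ∈ G k, c + 2 * h * k - h ≤ Q.y ∧ Q.y + Q.s ≤ c + 2 * h * k + h := by
    intro k Q hQ
    obtain ⟨h1, h2, h3⟩ := Finset.mem_filter.1 (hGF k hQ)
    have h4 := (hF Q h1).1
    exact ⟨by linarith, by linarith⟩
  have huniq : ∀ Q k k', Q ∈ G k → Q ∈ G k' → k = k' := by
    intro Q k k' h h'
    obtain ⟨a1, a2⟩ := hGs k Q h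
    obtain ⟨b1, b2⟩ := hGs k' Q h'
    have hs := Q.pos
    by_contra hne
    have h1 : (1:ℝ) ≤ |(k:ℝ) - k'| := by
      have h2 : (1:ℤ) ≤ |k - k'| := Int.one_le_abs (sub_ne_zero.2 hne)
      exact_mod_cast h2
    rcases le_abs.1 h1 with h2 | h2
    · nlinarith
    · nlinarith
  have hno : ∀ P ∈ F.filter (fun Q => ∃ k, Q ∈ G k), ∀ Q ∈ F.filter (fun Q => ∃ k, Q ∈ G k),
      P ≠ Q → ¬ ov P Q := by
    intro P hP Q hQ hPQ hov
    obtain ⟨-, k, hk⟩ := Finset.mem_filter.1 hP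
    obtain ⟨-, k', hk'⟩ := Finset.mem_filter.1 hQ
    by_cases h : k = k'
    · subst h
      exact hGno k P hk Q hk' hPQ hov
    · obtain ⟨a1, a2⟩ := hGs k P hk
      obtain ⟨b1, b2⟩ := hGs k' Q hk'
      obtain ⟨-, o1, o2⟩ := hov
      have h1 : (1:ℝ) ≤ |(k:ℝ) - k'| := by
        have h2 : (1:ℤ) ≤ |k - k'| := Int.one_le_abs (sub_ne_zero.2 h)
        exact_mod_cast h2
      rcases le_abs.1 h1 with h2 | h2
      · nlinarith
      · nlinarith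
  refine ⟨F.filter fun Q => ∃ k, Q ∈ G k, Finset.filter_subset _ _,
    fun P hP Q hQ hPQ => disjoint_of_not_ov (hno P hP Q hQ hPQ), ?_⟩
  have h1 : ∑' k : ℤ, ∑ Q ∈ G k, ENNReal.ofReal (Q.s ^ 2) ≤
      ∑ Q ∈ F.filter fun Q => ∃ k, Q ∈ G k, ENNReal.ofReal (Q.s ^ 2) := by
    have e1 : ∀ k : ℤ, ∑ Q ∈ G k, ENNReal.ofReal (Q.s ^ 2) =
        ∑ Q ∈ F.filter fun Q => ∃ k, Q ∈ G k, if Q ∈ G k then ENNReal.ofReal (Q.s ^ 2) else 0 := by
      intro k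
      rw [Finset.sum_ite_mem]
      congr 1
      ext Q
      simp only [Finset.mem_inter, Finset.mem_filter]
      constructor
      · intro h; exact ⟨⟨(Finset.mem_filter.1 (hGF k h)).1, k, h⟩, h⟩
      · intro h; exact h.2
    simp only [e1]
    rw [Summable.tsum_finsetSum (fun _ _ => ENNReal.summable)]
    apply Finset.sum_le_sum
    intro Q hQ
    obtain ⟨-, k, hk⟩ := Finset.mem_filter.1 hQ
    rw [tsum_eq_single k]
    · rw [if_pos hk]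
    · intro k' hk'
      rw [if_neg (fun h => hk' (huniq Q k' k h hk))]
  have h2 : volume (⋃ Q ∈ F, Q.set) ≤
      4 * ∑ Q ∈ F.filter fun Q => ∃ k, Q ∈ G k, ENNReal.ofReal (Q.s ^ 2) := by
    calc volume (⋃ Q ∈ F, Q.set) ≤ volume (⋃ k : ℤ, ⋃ Q ∈ F.filter
          (fun Q => Q.y ≤ c + 2 * h * k ∧ c + 2 * h * k ≤ Q.y + Q.s), Q.set) := by
          apply measure_mono
          intro z hz
          simp only [mem_iUnion, exists_prop, Finset.mem_filter] at hz ⊢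
          obtain ⟨Q, hQ, hz⟩ := hz
          obtain ⟨-, k, hk⟩ := hF Q hQ
          exact ⟨k, Q, ⟨hQ, hk⟩, hz⟩
      _ ≤ ∑' k : ℤ, volume (⋃ Q ∈ F.filter
          (fun Q => Q.y ≤ c + 2 * h * k ∧ c + 2 * h * k ≤ Q.y + Q.s), Q.set) :=
          measure_iUnion_le _
      _ ≤ ∑' k : ℤ, 4 * ∑ Q ∈ G k, ENNReal.ofReal (Q.s ^ 2) := ENNReal.tsum_le_tsum hG
      _ = 4 * ∑' k : ℤ, ∑ Q ∈ G k, ENNReal.ofReal (Q.s ^ 2) := ENNReal.tsum_mul_left
      _ ≤ _ := mul_le_mul_right h1 _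
  have h3 : ∑ Q ∈ F.filter (fun Q => ∃ k, Q ∈ G k), ENNReal.ofReal (Q.s ^ 2) ≤
      volume (⋃ Q ∈ F.filter (fun Q => ∃ k, Q ∈ G k), Q.set) := by
    refine le_trans (le_of_eq ?_) (sum_le_volume hno)
    refine Finset.sum_congr rfl fun Q _ => ?_
    rw [pow_two, ENNReal.ofReal_mul Q.pos.le]
  have h4 := ENNReal.toReal_mono (ENNReal.mul_ne_top (by norm_num) (volume_ne_top _))
    (h2.trans (mul_le_mul_right h3 4))
  rw [ENNReal.toReal_mul] at h4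
  change area F ≤ _ * area _ at h4
  norm_num at h4
  linarith

end Pool.Agent.Helper14.FracRado
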