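import Mathlib

/-!
# Perfect graphs: replication and the weighted stable set theorem
-/

open Finset

namespace Pool.Agent.Helper14.FracRado

variable {V : Type*}

/-- A graph is perfect if the chromatic number of each of its induced subgraphs is the clique
number of that subgraph. -/
def IsPerfect (G : SimpleGraph V) : Prop :=
  ∀ s : Set V, (G.induce s).chromaticNumber = ((G.induce s).cliqueNum : ℕ∞)

/-- the multiset of vertices with multiplicities `n` is partitioned by `k` independent sets -/
def Splits [DecidableEq V] (G : SimpleGraph V) (n : V → ℕ) (k : ℕ) : Prop :=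
  ∃ S : Fin k → Finset V, (∀ i, G.IsIndepSet (S i : Set V)) ∧
    ∀ v, ∑ i, (if v ∈ S i then 1 else 0) = n v

theorem Splits.cons [DecidableEq V] {G : SimpleGraph V} {n : V → ℕ} {k : ℕ} (h : Splits G n k)
    {A : Finset V} (hA : G.IsIndepSet (A : Set V)) {n' : V → ℕ}
    (hn' : ∀ v, n' v = (if v ∈ A then 1 else 0) + n v) : Splits G n' (k + 1) := by
  obtain ⟨S, hS, hn⟩ := h
  refine ⟨Fin.cons A S, ?_, ?_⟩
  · intro i
    refine Fin.cases ?_ (fun i => ?_) i
    · simpa using hA
    · simpa using hS i
  · intro v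
    rw [Fin.sum_univ_succ]
    simp only [Fin.cons_zero, Fin.cons_succ]
    rw [hn v, hn' v]

theorem indep_inter_clique_card [DecidableEq V] {G : SimpleGraph V} {C S : Finset V}
    (hC : G.IsClique (C : Set V)) (hS : G.IsIndepSet (S : Set V)) : (C ∩ S).card ≤ 1 := by
  rw [Finset.card_le_one]
  intro a ha b hb
  rw [Finset.mem_inter] at ha hb
  by_contra hne
  exact hS (by simpa using ha.2) (by simpa using hb.2) hne
    (hC (by simpa using ha.1) (by simpa using hb.1) hne)

theorem splits_sum [DecidableEq V] {n : V → ℕ} {k : ℕ} {S : Fin k → Finset V}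
    (hn : ∀ v, ∑ i, (if v ∈ S i then 1 else 0) = n v) (C : Finset V) :
    ∑ v ∈ C, n v = ∑ i, (C ∩ S i).card := by
  simp only [← hn]
  rw [Finset.sum_comm]
  apply Finset.sum_congr rfl
  intro i _
  rw [Finset.sum_ite_mem, Finset.sum_const, smul_eq_mul, mul_one]

theorem splits_base [Fintype V] [DecidableEq V] {G : SimpleGraph V} (hG : IsPerfect G)
    {n : V → ℕ} {k : ℕ} (hn : ∀ v, n v ≤ 1)
    (hk : ∀ C : Finset V, G.IsClique (C : Set V) → ∑ v ∈ C, n v ≤ k) : Splits G n k := by
  classical
  set s : Set V := {v | n v = 1} with hs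
  have h1 : (G.induce s).cliqueNum ≤ k := by
    obtain ⟨t, ht⟩ := (G.induce s).exists_isNClique_cliqueNum
    have h2 : G.IsClique ((t.map (Function.Embedding.subtype _) : Finset V) : Set V) := by
      intro a ha b hb hab
      simp only [Finset.coe_map, Function.Embedding.subtype_apply, Set.mem_image,
        Finset.mem_coe] at ha hb
      obtain ⟨a', ha', rfl⟩ := ha
      obtain ⟨b', hb', rfl⟩ := hb
      have := ht.isClique ha' hb' (fun h => hab (by rw [h]))
      simpa using this
    have h3 := hk _ h2
    rw [Finset.sum_map] at h3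
    have h4 : ∑ x ∈ t, n (Function.Embedding.subtype _ x) = t.card := by
      rw [Finset.card_eq_sum_ones]
      apply Finset.sum_congr rfl
      intro x _
      exact x.2
    rw [h4, ht.card_eq] at h3
    exact h3
  have h2 : (G.induce s).Colorable k := by
    rw [← SimpleGraph.chromaticNumber_le_iff_colorable, hG s]
    exact_mod_cast h1
  obtain ⟨c⟩ := h2
  refine ⟨fun i => Finset.univ.filter fun v => ∃ h : v ∈ s, c ⟨v, h⟩ = i, ?_, ?_⟩
  · intro i a ha b hb hab hadj
    simp only [Finset.coe_filter, Finset.mem_univ, true_and, Set.mem_setOf_eq] at ha hb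
    obtain ⟨ha, hca⟩ := ha
    obtain ⟨hb, hcb⟩ := hb
    have : (G.induce s).Adj ⟨a, ha⟩ ⟨b, hb⟩ := by simpa using hadj
    exact c.valid this (hca.trans hcb.symm)
  · intro v
    simp only [Finset.mem_filter, Finset.mem_univ, true_and]
    by_cases hv : v ∈ s
    · have : ∀ i : Fin k, (∃ h : v ∈ s, c ⟨v, h⟩ = i) ↔ c ⟨v, hv⟩ = i := by
        intro i
        constructor
        · rintro ⟨_, h⟩; exact h
        · intro h; exact ⟨hv, h⟩
      simp only [this]
      rw [Finset.sum_ite_eq]
      simp only [Finset.mem_univ, if_true]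
      exact hv.symm
    · have : ∀ i : Fin k, ¬ (∃ h : v ∈ s, c ⟨v, h⟩ = i) := fun i h => hv h.1
      simp only [this, if_false, Finset.sum_const_zero]
      have h5 : n v ≠ 1 := hv
      have := hn v
      omega

/-- Lovász' replication lemma in weighted form -/
theorem splits [Fintype V] [DecidableEq V] {G : SimpleGraph V} (hG : IsPerfect G) :
    ∀ (N : ℕ) (n : V → ℕ) (k : ℕ), ∑ v, n v ≤ N →
      (∀ C : Finset V, G.IsClique (C : Set V) → ∑ v ∈ C, n v ≤ k) → Splits G n k := by
  intro N
  induction N with
  | zero =>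
    intro n k hN hk
    apply splits_base hG _ hk
    intro v
    have := Finset.single_le_sum (f := n) (fun i _ => Nat.zero_le _) (Finset.mem_univ v)
    omega
  | succ N ih =>
    intro n k hN hk
    by_cases hn : ∀ v, n v ≤ 1
    · exact splits_base hG hn hk
    push Not at hn
    obtain ⟨a, ha⟩ := hn
    have hk1 : n a ≤ k := by
      have := hk {a} (by simp)
      simpa using this
    obtain ⟨k, rfl⟩ : ∃ k', k = k' + 1 := ⟨k - 1, by omega⟩
    obtain ⟨n', hn'a, hn'⟩ : ∃ n' : V → ℕ, n' a + 1 = n a ∧ ∀ v, v ≠ a → n' v = n v :=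
      ⟨Function.update n a (n a - 1), by simp; omega, fun v hv => by simp [hv]⟩
    have hsum : ∀ C : Finset V, ∑ v ∈ C, n v = ∑ v ∈ C, n' v + if a ∈ C then 1 else 0 := by
      intro C
      have : ∀ v, n v = n' v + if v = a then 1 else 0 := by
        intro v
        by_cases hv : v = a
        · subst hv; simp [hn'a]
        · simp [hv, hn' v hv]
      simp only [this]
      rw [Finset.sum_add_distrib, Finset.sum_ite_eq']
    have hN' : ∑ v, n' v ≤ N := by
      have := hsum Finset.univ
      simp only [Finset.mem_univ, if_true] at this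
      omega
    by_cases hA : ∀ C : Finset V, G.IsClique (C : Set V) → ∑ v ∈ C, n' v ≤ k
    · refine (ih n' k hN' hA).cons (A := {a}) (by simp) ?_
      intro v
      by_cases hv : v = a
      · subst hv; simp; omega
      · simp [hv, hn' v hv]
    · obtain ⟨S, hS, hSn⟩ := ih n' (k + 1) hN' (fun C hC => by
        have h1 := hk C hC
        have h2 := hsum C
        omega)
      obtain ⟨i, hi⟩ : ∃ i, a ∈ S i := by
        by_contra hcon
        push Not at hcon
        have := hSn a
        simp only [hcon, if_false, Finset.sum_const_zero] at this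
        omega
      have hpos : ∀ v ∈ S i, 1 ≤ n' v := by
        intro v hv
        rw [← hSn v]
        calc 1 = if v ∈ S i then 1 else 0 := by simp [hv]
          _ ≤ _ := Finset.single_le_sum (f := fun i => if v ∈ S i then 1 else 0)
            (fun _ _ => Nat.zero_le _) (Finset.mem_univ i)
      obtain ⟨n'', hn''⟩ : ∃ n'' : V → ℕ, ∀ v, n'' v + (if v ∈ S i ∧ v ≠ a then 1 else 0) = n' v := by
        refine ⟨fun v => n' v - (if v ∈ S i ∧ v ≠ a then 1 else 0), fun v => ?_⟩
        by_cases hv : v ∈ S i ∧ v ≠ a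
        · have := hpos v hv.1
          simp only [hv, ne_eq, not_false_eq_true, and_self, if_true]
          omega
        · simp only [hv, if_false]
          omega
      have hle : ∀ v, n'' v ≤ n' v := fun v => by have := hn'' v; omega
      have hB : ∀ C : Finset V, G.IsClique (C : Set V) → ∑ v ∈ C, n'' v ≤ k := by
        intro C hC
        by_contra hcon
        push Not at hcon
        have h1 : ∑ v ∈ C, n' v = ∑ i, (C ∩ S i).card := splits_sum hSn C
        have h2 : ∑ j, (C ∩ S j).card ≤ ∑ j : Fin (k + 1), 1 :=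
          Finset.sum_le_sum fun j _ => indep_inter_clique_card hC (hS j)
        have h3 : ∑ v ∈ C, n'' v ≤ ∑ v ∈ C, n' v := Finset.sum_le_sum fun v _ => hle v
        simp only [Finset.sum_const, Finset.card_univ, Fintype.card_fin, smul_eq_mul,
          mul_one] at h2
        have h4 : ∑ v ∈ C, n' v = k + 1 := by omega
        have h5 : ∑ v ∈ C, n'' v = ∑ v ∈ C, n' v := by omega
        have h6 : ∀ v ∈ C, n'' v = n' v :=
          (Finset.sum_eq_sum_iff_of_le fun v _ => hle v).1 h5
        have h7 : ∀ j ∈ Finset.univ, (C ∩ S j).card = 1 := by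
          apply (Finset.sum_eq_sum_iff_of_le
            (fun j _ => indep_inter_clique_card hC (hS j))).1
          rw [← h1, h4]
          simp
        have h8 := h7 i (Finset.mem_univ i)
        obtain ⟨b, hb⟩ := Finset.card_eq_one.1 h8
        have hbm : b ∈ C ∩ S i := by rw [hb]; simp
        rw [Finset.mem_inter] at hbm
        have hba : b = a := by
          by_contra hne
          have h9 := hn'' b
          rw [if_pos ⟨hbm.2, hne⟩] at h9
          have := h6 b hbm.1
          omega
        subst hba
        have h10 := hsum C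
        rw [if_pos hbm.1] at h10
        have := hk C hC
        omega
      have hN'' : ∑ v, n'' v ≤ N := (Finset.sum_le_sum fun v _ => hle v).trans hN'
      refine (ih n'' k hN'' hB).cons (A := S i) (hS i) ?_
      intro v
      have h1 := hn'' v
      by_cases hv : v = a
      · subst hv
        simp only [hi, ne_eq, not_true_eq_false, and_false, if_false, if_true] at h1 ⊢
        omega
      · rw [← hn' v hv]
        by_cases hvS : v ∈ S i
        · simp only [hvS, hv, ne_eq, not_false_eq_true, and_self, if_true] at h1 ⊢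
          omega
        · simp only [hvS, false_and, if_false] at h1 ⊢
          omega

/-- the weighted form: a perfect graph has an independent set of weight at least `∑ x w` for
every point `x` of the clique polytope -/
theorem exists_indep [Fintype V] [DecidableEq V] {G : SimpleGraph V} (hG : IsPerfect G)
    {x w : V → ℝ} (hx : ∀ v, 0 ≤ x v) (hw : ∀ v, 0 ≤ w v)
    (hC : ∀ C : Finset V, G.IsClique (C : Set V) → ∑ v ∈ C, x v ≤ 1) :
    ∃ S : Finset V, G.IsIndepSet (S : Set V) ∧ ∑ v, x v * w v ≤ ∑ v ∈ S, w v := by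
  classical
  have hne : (Finset.univ.filter fun S : Finset V => G.IsIndepSet (S : Set V)).Nonempty :=
    ⟨∅, by simp⟩
  obtain ⟨S, hS, hmax⟩ := Finset.exists_max_image _ (fun S => ∑ v ∈ S, w v) hne
  simp only [Finset.mem_filter, Finset.mem_univ, true_and] at hS hmax
  refine ⟨S, hS, ?_⟩
  have key : ∀ N : ℕ, (N : ℝ) * ∑ v, x v * w v ≤ N * ∑ v ∈ S, w v + ∑ v, w v := by
    intro N
    obtain ⟨T, hT, hTn⟩ := splits hG (∑ v, ⌊N * x v⌋₊) (fun v => ⌊N * x v⌋₊) N le_rfl (by
      intro C hCl
      have h1 : ((∑ v ∈ C, ⌊N * x v⌋₊ : ℕ) : ℝ) ≤ N := by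
        push_cast
        calc ∑ v ∈ C, ((⌊N * x v⌋₊ : ℕ) : ℝ) ≤ ∑ v ∈ C, N * x v :=
              Finset.sum_le_sum fun v _ =>
                Nat.floor_le (mul_nonneg (Nat.cast_nonneg _) (hx v))
          _ = N * ∑ v ∈ C, x v := by rw [Finset.mul_sum]
          _ ≤ N * 1 := mul_le_mul_of_nonneg_left (hC C hCl) (Nat.cast_nonneg _)
          _ = N := mul_one _
      exact_mod_cast h1)
    have h2 : ∑ i, ∑ v ∈ T i, w v = ∑ v, (⌊N * x v⌋₊ : ℝ) * w v := by
      have h3 : ∀ v, (⌊N * x v⌋₊ : ℝ) = ∑ i, (if v ∈ T i then (1:ℝ) else 0) := by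
        intro v
        have h := hTn v
        simp only at h
        rw [← h]
        push_cast
        rfl
      simp only [h3, Finset.sum_mul]
      rw [Finset.sum_comm]
      apply Finset.sum_congr rfl
      intro i _
      simp only [ite_mul, one_mul, zero_mul]
      rw [Finset.sum_ite_mem, Finset.univ_inter]
    have h4 : ∑ i, ∑ v ∈ T i, w v ≤ N * ∑ v ∈ S, w v := by
      calc ∑ i, ∑ v ∈ T i, w v ≤ ∑ _i : Fin N, ∑ v ∈ S, w v :=
            Finset.sum_le_sum fun i _ => hmax (T i) (hT i)
        _ = N * ∑ v ∈ S, w v := by simp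
    have h5 : (N : ℝ) * ∑ v, x v * w v - ∑ v, w v ≤ ∑ v, (⌊N * x v⌋₊ : ℝ) * w v := by
      rw [Finset.mul_sum, ← Finset.sum_sub_distrib]
      apply Finset.sum_le_sum
      intro v _
      have h6 := Nat.lt_floor_add_one ((N : ℝ) * x v)
      nlinarith [hw v]
    linarith
  by_contra hcon
  push Not at hcon
  set d := ∑ v, x v * w v - ∑ v ∈ S, w v with hd
  have hd0 : 0 < d := by rw [hd]; linarith
  obtain ⟨N, hN⟩ := exists_nat_gt ((∑ v, w v) / d)
  have h1 := key N
  rw [div_lt_iff₀ hd0] at hN
  have h2 : (N : ℝ) * d ≤ ∑ v, w v := by rw [hd]; linarith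
  linarith

end Pool.Agent.Helper14.FracRado
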