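import Pool.Agent.Helper14.FracRado.Frac
import Pool.Agent.Helper14.FracRado.Perf
import Pool.Agent.Helper15.Rado.Global

/-!
# Rado's conjecture for families with a perfect overlap graph
-/

open MeasureTheory Set Pool.Agent.Helper15.Rado
open scoped ENNReal NNReal

namespace Pool.Agent.Helper14.FracRado

/-- The overlap graph of `F`: the vertices are the members of `F`, and two different members are
joined when their interiors meet. -/
def overlapGraph (F : Finset Sq) : SimpleGraph {Q : Sq // Q ∈ F} where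
  Adj P Q := P ≠ Q ∧ ¬ Disjoint (interior P.1.set) (interior Q.1.set)
  symm := ⟨fun _ _ h => ⟨h.1.symm, fun h' => h.2 h'.symm⟩⟩
  loopless := ⟨fun _ h => h.1 rfl⟩

theorem ov_of_not_disjoint {P Q : Sq} (h : ¬ Disjoint (interior P.set) (interior Q.set)) :
    ov P Q := by
  by_contra hcon
  exact h (disjoint_of_not_ov hcon)

theorem helly_aux {C : Finset Sq} (hC : C.Nonempty) (hov : ∀ P ∈ C, ∀ Q ∈ C, ov P Q) :
    ∃ p : ℝ × ℝ, ∀ Q ∈ C, p ∈ Q.set := by
  obtain ⟨A, hA, hA'⟩ := C.exists_max_image (fun Q => Q.x) hC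
  obtain ⟨B, hB, hB'⟩ := C.exists_max_image (fun Q => Q.y) hC
  refine ⟨(A.x, B.y), ?_⟩
  intro Q hQ
  have h1 := hov A hA Q hQ
  have h2 := hov B hB Q hQ
  exact ⟨⟨hA' Q hQ, h1.1.1.le⟩, hB' Q hQ, h2.2.1.le⟩

theorem area_of_nonOv {G : Finset Sq} (hG : ∀ P ∈ G, ∀ Q ∈ G, P ≠ Q → ¬ ov P Q) :
    ∑ Q ∈ G, Q.s ^ 2 ≤ area G := by
  have h := sum_le_volume hG
  have h1 := ENNReal.toReal_mono (volume_ne_top G) h
  unfold area
  refine le_trans (le_of_eq ?_) h1
  rw [ENNReal.toReal_sum (fun Q _ => ENNReal.mul_ne_top ENNReal.ofReal_ne_top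
    ENNReal.ofReal_ne_top)]
  apply Finset.sum_congr rfl
  intro Q _
  rw [ENNReal.toReal_mul, ENNReal.toReal_ofReal Q.pos.le, sq]

theorem perfect_main (F : Finset Sq) (hF : IsPerfect (overlapGraph F)) :
    ∃ G ⊆ F, NonOv G ∧ area F / 4 ≤ area G := by
  classical
  obtain ⟨x, hx0, hxp, hxs⟩ := fractional F
  obtain ⟨S, hS, hSw⟩ := exists_indep hF (x := fun Q => x Q.1) (w := fun Q => Q.1.s ^ 2)
    (fun Q => hx0 Q.1) (fun Q => sq_nonneg _) (by
      intro C hC
      rcases C.eq_empty_or_nonempty with rfl | hne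
      · simp
      · obtain ⟨p, hp⟩ := helly_aux (C := C.map (Function.Embedding.subtype _))
          (by simpa using hne) (by
            intro P hP Q hQ
            simp only [Finset.mem_map, Function.Embedding.subtype_apply] at hP hQ
            obtain ⟨P, hP, rfl⟩ := hP
            obtain ⟨Q, hQ, rfl⟩ := hQ
            by_cases h : P = Q
            · subst h; exact ov_self _
            · exact ov_of_not_disjoint (hC hP hQ h).2)
        calc ∑ Q ∈ C, x Q.1 = ∑ Q ∈ C.map (Function.Embedding.subtype _), x Q := by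
              rw [Finset.sum_map]; rfl
          _ = ∑ Q ∈ C.map (Function.Embedding.subtype _), (Q.set.indicator (fun _ => x Q) p) := by
              apply Finset.sum_congr rfl
              intro Q hQ
              rw [indicator_of_mem (hp Q hQ)]
          _ ≤ ∑ Q ∈ F, (Q.set.indicator (fun _ => x Q) p) := by
              apply Finset.sum_le_sum_of_subset_of_nonneg
              · intro Q hQ
                simp only [Finset.mem_map, Function.Embedding.subtype_apply] at hQ
                obtain ⟨Q, _, rfl⟩ := hQ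
                exact Q.2
              · intro Q _ _
                exact indicator_nonneg (fun _ _ => hx0 Q) _
          _ ≤ 1 := hxp p)
  have hno : ∀ P ∈ S.map (Function.Embedding.subtype _), ∀ Q ∈ S.map
      (Function.Embedding.subtype _), P ≠ Q → ¬ ov P Q := by
    intro P hP Q hQ hPQ hov
    simp only [Finset.mem_map, Function.Embedding.subtype_apply] at hP hQ
    obtain ⟨P, hP, rfl⟩ := hP
    obtain ⟨Q, hQ, rfl⟩ := hQ
    refine hS hP hQ (fun h => hPQ (by rw [h])) ⟨fun h => hPQ (by rw [h]), ?_⟩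
    rw [interior_set, interior_set, Set.not_disjoint_iff]
    obtain ⟨⟨h1, h2⟩, h3, h4⟩ := hov
    have hp1 := P.1.pos
    have hq1 := Q.1.pos
    obtain ⟨a, ha1, ha2⟩ := exists_between
      (show max P.1.x Q.1.x < min (P.1.x + P.1.s) (Q.1.x + Q.1.s) by
        simp only [max_lt_iff, lt_min_iff]
        refine ⟨⟨by linarith, h2⟩, h1, by linarith⟩)
    obtain ⟨b, hb1, hb2⟩ := exists_between
      (show max P.1.y Q.1.y < min (P.1.y + P.1.s) (Q.1.y + Q.1.s) by
        simp only [max_lt_iff, lt_min_iff]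
        refine ⟨⟨by linarith, h4⟩, h3, by linarith⟩)
    simp only [max_lt_iff, lt_min_iff] at ha1 ha2 hb1 hb2
    exact ⟨(a, b), ⟨⟨ha1.1, ha2.1⟩, hb1.1, hb2.1⟩, ⟨ha1.2, ha2.2⟩, hb1.2, hb2.2⟩
  refine ⟨S.map (Function.Embedding.subtype _), ?_, ?_, ?_⟩
  · intro Q hQ
    simp only [Finset.mem_map, Function.Embedding.subtype_apply] at hQ
    obtain ⟨Q, _, rfl⟩ := hQ
    exact Q.2
  · exact fun P hP Q hQ hPQ => disjoint_of_not_ov (hno P hP Q hQ hPQ)
  · calc area F / 4 ≤ ∑ Q ∈ F, x Q * Q.s ^ 2 := hxs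
      _ = ∑ Q : {Q // Q ∈ F}, x Q.1 * Q.1.s ^ 2 := by
          rw [← Finset.sum_attach, Finset.univ_eq_attach]
      _ ≤ ∑ Q ∈ S, Q.1.s ^ 2 := hSw
      _ = ∑ Q ∈ S.map (Function.Embedding.subtype _), Q.s ^ 2 := by
          rw [Finset.sum_map]; rfl
      _ ≤ _ := area_of_nonOv hno

end Pool.Agent.Helper14.FracRado
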