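import Pool.Agent.Helper14.FracRado.Strip

/-!
# Families of squares whose sides lie in `[a, r a]`
-/

open MeasureTheory Set Pool.Agent.Helper15.Rado
open scoped ENNReal NNReal

namespace Pool.Agent.Helper14.FracRado

theorem half_mass {ℓ : ℝ} {F : Finset Sq} {Q : Sq} (hQ : Q ∈ F) {x : ℝ}
    (hx : x ∈ Icc Q.x (Q.x + Q.s)) {u v : ℝ} (hv0 : 0 ≤ v) (hvu : v ≤ u) (hvs : v ≤ Q.s / 2)
    (hvℓ : v ≤ ℓ - Q.s / 2) :
    ENNReal.ofReal (2 * Q.s * v) ≤ ∫⁻ y in Ioc (cen Q - u) (cen Q), m2 ℓ F (x, y) ∧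
    ENNReal.ofReal (2 * Q.s * v) ≤ ∫⁻ y in Ioc (cen Q) (cen Q + u), m2 ℓ F (x, y) := by
  have hs := Q.pos
  have hc : cen Q = Q.y + Q.s / 2 := rfl
  have key : ∀ y ∈ Icc (cen Q - v) (cen Q + v), ENNReal.ofReal (2 * Q.s) ≤ m2 ℓ F (x, y) := by
    intro y hy
    rw [hc] at hy
    have hb : (x, y) ∈ band ℓ Q := by
      rw [mem_band]
      exact ⟨hx, ⟨by linarith [hy.1], by linarith [hy.1]⟩, by linarith [hy.2], by linarith [hy.2]⟩
    calc ENNReal.ofReal (2 * Q.s) = (band ℓ Q).indicator (fun _ => ENNReal.ofReal (2 * Q.s)) (x, y) := by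
          rw [indicator_of_mem hb]
      _ ≤ _ := Finset.le_sup (f := fun Q : Sq =>
          (band ℓ Q).indicator (fun _ => ENNReal.ofReal (2 * Q.s)) (x, y)) hQ
  constructor
  · calc ENNReal.ofReal (2 * Q.s * v) = ∫⁻ y in Ioc (cen Q - v) (cen Q), ENNReal.ofReal (2 * Q.s) := by
          rw [setLIntegral_const, Real.volume_Ioc, ← ENNReal.ofReal_mul (by positivity)]
          congr 1; ring
      _ ≤ ∫⁻ y in Ioc (cen Q - v) (cen Q), m2 ℓ F (x, y) :=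
          setLIntegral_mono' measurableSet_Ioc fun y hy => key y ⟨hy.1.le, by linarith [hy.2]⟩
      _ ≤ _ := lintegral_mono_set (Ioc_subset_Ioc_left (by linarith))
  · calc ENNReal.ofReal (2 * Q.s * v) = ∫⁻ y in Ioc (cen Q) (cen Q + v), ENNReal.ofReal (2 * Q.s) := by
          rw [setLIntegral_const, Real.volume_Ioc, ← ENNReal.ofReal_mul (by positivity)]
          congr 1; ring
      _ ≤ ∫⁻ y in Ioc (cen Q) (cen Q + v), m2 ℓ F (x, y) :=
          setLIntegral_mono' measurableSet_Ioc fun y hy => key y ⟨by linarith [hy.1], hy.2⟩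
      _ ≤ _ := lintegral_mono_set (Ioc_subset_Ioc_right (by linarith))

/-- real form of the strip theorem -/
theorem strip_real {ℓ : ℝ} (hℓ : 0 < ℓ) (F : Finset Sq) :
    ∃ G ⊆ F, (∀ P ∈ G, ∀ Q ∈ G, P ≠ Q → ¬ ov P Q) ∧
      (∫⁻ z, m2 ℓ F z).toReal ≤ 8 * ℓ * area G := by
  obtain ⟨G, hGF, hno, hG⟩ := strip hℓ F
  refine ⟨G, hGF, hno, ?_⟩
  have h1 : ∑ Q ∈ G, ENNReal.ofReal (Q.s ^ 2) ≤ volume (⋃ Q ∈ G, Q.set) := by
    refine le_trans (le_of_eq ?_) (sum_le_volume hno)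
    refine Finset.sum_congr rfl fun Q _ => ?_
    rw [pow_two, ENNReal.ofReal_mul Q.pos.le]
  have h2 : ∫⁻ z, m2 ℓ F z ≤ ENNReal.ofReal (8 * ℓ) * volume (⋃ Q ∈ G, Q.set) :=
    hG.trans (mul_le_mul_right h1 _)
  have h3 := ENNReal.toReal_mono (ENNReal.mul_ne_top ENNReal.ofReal_ne_top (volume_ne_top G)) h2
  rw [ENNReal.toReal_mul, ENNReal.toReal_ofReal (by positivity)] at h3
  exact h3

/-- one scale -/
theorem ratio_one {a r : ℝ} (ha : 0 < a) (hr : 1 ≤ r) (F : Finset Sq)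
    (hF : ∀ Q ∈ F, a ≤ Q.s ∧ Q.s ≤ r * a) :
    ∃ G ⊆ F, (∀ P ∈ G, ∀ Q ∈ G, P ≠ Q → ¬ ov P Q) ∧ area F ≤ (2 + 2 * r) * area G := by
  obtain ⟨G, hGF, hno, hG⟩ := strip_real (ℓ := (1 + r) * a / 2) (by positivity) F
  refine ⟨G, hGF, hno, ?_⟩
  have h1 := plane (measurable_m2 ((1 + r) * a / 2) F) (κ := ENNReal.ofReal (2 * a)) F (by
    intro Q hQ x hx u hu hu'
    obtain ⟨h1, h2⟩ := hF Q hQ
    have hs := Q.pos
    rw [← ENNReal.ofReal_mul (by positivity)]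
    obtain ⟨v, hv0, hvu, hvs, hvℓ, hv⟩ : ∃ v : ℝ, 0 ≤ v ∧ v ≤ u ∧ v ≤ Q.s / 2 ∧
        v ≤ (1 + r) * a / 2 - Q.s / 2 ∧ 2 * a * u ≤ 2 * Q.s * v := by
      rcases le_total u ((1 + r) * a / 2 - Q.s / 2) with h | h
      · exact ⟨u, hu, le_rfl, hu', h, by nlinarith⟩
      · refine ⟨(1 + r) * a / 2 - Q.s / 2, by nlinarith, h, by linarith, le_rfl, ?_⟩
        nlinarith
    obtain ⟨g1, g2⟩ := half_mass hQ hx hv0 hvu hvs hvℓ
    exact ⟨(ENNReal.ofReal_le_ofReal hv).trans g1, (ENNReal.ofReal_le_ofReal hv).trans g2⟩)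
  have h2 := ENNReal.toReal_mono (lintegral_m2_ne_top _ F) h1
  rw [ENNReal.toReal_mul, ENNReal.toReal_ofReal (by positivity)] at h2
  change 2 * a * area F ≤ _ at h2
  have h3 : 2 * a * area F ≤ 2 * a * ((2 + 2 * r) * area G) := by
    calc 2 * a * area F ≤ 8 * ((1 + r) * a / 2) * area G := h2.trans hG
      _ = _ := by ring
  exact le_of_mul_le_mul_left h3 (by positivity)

/-- two scales -/
theorem ratio_two {a r : ℝ} (ha : 0 < a) (hr : 2 ≤ r) (F : Finset Sq)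
    (hF : ∀ Q ∈ F, a ≤ Q.s ∧ Q.s ≤ r * a) :
    ∃ G ⊆ F, (∀ P ∈ G, ∀ Q ∈ G, P ≠ Q → ¬ ov P Q) ∧ area F ≤ (4 + r) * area G := by
  obtain ⟨G1, hGF1, hno1, hG1⟩ := strip_real (ℓ := a) ha F
  obtain ⟨G2, hGF2, hno2, hG2⟩ := strip_real (ℓ := (2 + r) * a / 2) (by positivity) F
  have h1 := plane ((measurable_m2 a F).add (measurable_m2 ((2 + r) * a / 2) F))
    (κ := ENNReal.ofReal (4 * a)) F (by
    intro Q hQ x hx u hu hu'
    obtain ⟨h1, h2⟩ := hF Q hQ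
    have hs := Q.pos
    rw [← ENNReal.ofReal_mul (by positivity)]
    obtain ⟨v, w, hv0, hvu, hvs, hvℓ, hw0, hwu, hws, hwℓ, hvw⟩ : ∃ v w : ℝ, 0 ≤ v ∧ v ≤ u ∧
        v ≤ Q.s / 2 ∧ (v = 0 ∨ v ≤ a - Q.s / 2) ∧ 0 ≤ w ∧ w ≤ u ∧ w ≤ Q.s / 2 ∧
        w ≤ (2 + r) * a / 2 - Q.s / 2 ∧ 4 * a * u ≤ 2 * Q.s * v + 2 * Q.s * w := by
      rcases le_total Q.s (2 * a) with hsa | hsa
      · have hw : u ≤ (2 + r) * a / 2 - Q.s / 2 := by nlinarith
        rcases le_total u (a - Q.s / 2) with h | h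
        · exact ⟨u, u, hu, le_rfl, hu', Or.inr h, hu, le_rfl, hu', hw, by nlinarith⟩
        · refine ⟨a - Q.s / 2, u, by linarith, h, by linarith, Or.inr le_rfl, hu, le_rfl, hu',
            hw, ?_⟩
          nlinarith [mul_nonneg (show 0 ≤ 2 * a - Q.s by linarith)
            (show 0 ≤ Q.s - 2 * u by linarith)]
      · rcases le_total u ((2 + r) * a / 2 - Q.s / 2) with h | h
        · exact ⟨0, u, le_rfl, hu, by linarith, Or.inl rfl, hu, le_rfl, hu', h, by nlinarith⟩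
        · refine ⟨0, (2 + r) * a / 2 - Q.s / 2, le_rfl, hu, by linarith, Or.inl rfl,
            by nlinarith, h, by linarith, le_rfl, ?_⟩
          nlinarith
    have hadd : ∀ S : Set ℝ, ∫⁻ y in S, ((m2 a F + m2 ((2 + r) * a / 2) F) (x, y)) =
        (∫⁻ y in S, m2 a F (x, y)) + ∫⁻ y in S, m2 ((2 + r) * a / 2) F (x, y) := by
      intro S
      simp only [Pi.add_apply]
      exact lintegral_add_left ((measurable_m2 a F).comp measurable_prodMk_left) _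
    rw [hadd, hadd]
    obtain ⟨g1, g2⟩ := half_mass hQ hx hw0 hwu hws hwℓ
    have hsum : ENNReal.ofReal (4 * a * u) ≤
        ENNReal.ofReal (2 * Q.s * v) + ENNReal.ofReal (2 * Q.s * w) := by
      rw [← ENNReal.ofReal_add (by positivity) (by positivity)]
      exact ENNReal.ofReal_le_ofReal hvw
    rcases hvℓ with rfl | hvℓ
    · rw [mul_zero, ENNReal.ofReal_zero, zero_add] at hsum
      exact ⟨(hsum.trans g1).trans (le_add_of_nonneg_left zero_le),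
        (hsum.trans g2).trans (le_add_of_nonneg_left zero_le)⟩
    · obtain ⟨k1, k2⟩ := half_mass hQ hx hv0 hvu hvs hvℓ
      exact ⟨hsum.trans (add_le_add k1 g1), hsum.trans (add_le_add k2 g2)⟩)
  have hint : ∫⁻ p, (m2 a F + m2 ((2 + r) * a / 2) F) p =
      (∫⁻ p, m2 a F p) + ∫⁻ p, m2 ((2 + r) * a / 2) F p := by
    simp only [Pi.add_apply]
    exact lintegral_add_left (measurable_m2 a F) _
  rw [hint] at h1
  have h2 := ENNReal.toReal_mono (ENNReal.add_ne_top.2 ⟨lintegral_m2_ne_top _ F,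
    lintegral_m2_ne_top _ F⟩) h1
  rw [ENNReal.toReal_add (lintegral_m2_ne_top _ F) (lintegral_m2_ne_top _ F),
    ENNReal.toReal_mul, ENNReal.toReal_ofReal (by positivity)] at h2
  change 4 * a * area F ≤ _ at h2
  have h0 : 0 ≤ area G1 := ENNReal.toReal_nonneg
  have h0' : 0 ≤ area G2 := ENNReal.toReal_nonneg
  have hfin : ∀ V, area G1 ≤ V → area G2 ≤ V → area F ≤ (4 + r) * V := by
    intro V hV1 hV2
    have h3 : 4 * a * area F ≤ 4 * a * ((4 + r) * V) := by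
      calc 4 * a * area F ≤ 8 * a * area G1 + 8 * ((2 + r) * a / 2) * area G2 := by linarith
        _ ≤ 8 * a * V + 8 * ((2 + r) * a / 2) * V := by gcongr
        _ = _ := by ring
    exact le_of_mul_le_mul_left h3 (by positivity)
  rcases le_total (area G1) (area G2) with h | h
  · exact ⟨G2, hGF2, hno2, hfin _ h le_rfl⟩
  · exact ⟨G1, hGF1, hno1, hfin _ le_rfl h⟩

end Pool.Agent.Helper14.FracRado
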