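import Pool.Agent.Helper14.FracRado.Line

/-!
# A one-dimensional covering lemma, and its use on vertical sections
-/

open MeasureTheory Set Pool.Agent.Helper15.Rado
open scoped ENNReal NNReal

namespace Pool.Agent.Helper14.FracRado

/-- the vertical projection of a square -/
def vI (Q : Sq) : Set ℝ := Icc Q.y (Q.y + Q.s)

/-- the ordinate of the centre -/
noncomputable def cen (Q : Sq) : ℝ := Q.y + Q.s / 2

/-- both halves of the vertical projection have enough measure, near the centre -/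
def HalfGood (μ : Measure ℝ) (κ : ℝ≥0∞) (Q : Sq) : Prop :=
  ∀ u : ℝ, 0 ≤ u → u ≤ Q.s / 2 → κ * ENNReal.ofReal u ≤ μ (Ioc (cen Q - u) (cen Q)) ∧
    κ * ENNReal.ofReal u ≤ μ (Ioc (cen Q) (cen Q + u))

theorem measurableSet_vU (F : Finset Sq) : MeasurableSet (⋃ Q ∈ F, vI Q) :=
  Finset.measurableSet_biUnion _ fun _ _ => measurableSet_Icc

theorem sect_step {μ : Measure ℝ} {κ : ℝ≥0∞} {F : Finset Sq} {Q : Sq} {t τ : ℝ}
    (hQ : HalfGood μ κ Q) (h1 : Q.y ≤ τ) (h2 : τ ≤ cen Q) (h3 : cen Q ≤ t)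
    (h4 : ∀ y ∈ vI Q, y < τ → y ∈ ⋃ R ∈ F, vI R) (h5 : ∀ R ∈ F, R.y + R.s ≤ Q.y + Q.s)
    (ih : κ * volume ((⋃ R ∈ F, vI R) ∩ Iic τ) ≤ μ ((⋃ R ∈ F, vI R) ∩ Iic τ)) :
    κ * volume ((vI Q ∪ ⋃ R ∈ F, vI R) ∩ Iic t) ≤ μ ((vI Q ∪ ⋃ R ∈ F, vI R) ∩ Iic t) := by
  have hs := Q.pos
  have hc : cen Q = Q.y + Q.s / 2 := rfl
  set U := ⋃ R ∈ F, vI R with hU
  set b := min t (Q.y + Q.s) with hb
  have hcb : cen Q ≤ b := le_min h3 (by rw [hc]; linarith)
  have hup : (vI Q ∪ U) ∩ Iic t ⊆ ((U ∩ Iic τ) ∪ Icc τ τ) ∪ (Ioc τ (cen Q) ∪ Ioc (cen Q) b) := by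
    rintro y ⟨hy, hyt⟩
    have hyt' : y ≤ t := hyt
    have hcase : τ < y → y ≤ Q.y + Q.s →
        y ∈ ((U ∩ Iic τ) ∪ Icc τ τ) ∪ (Ioc τ (cen Q) ∪ Ioc (cen Q) b) := by
      intro h h'
      rcases le_or_gt y (cen Q) with h6 | h6
      · exact Or.inr (Or.inl ⟨h, h6⟩)
      · exact Or.inr (Or.inr ⟨h6, le_min hyt' h'⟩)
    rcases hy with hy | hy
    · rcases lt_trichotomy y τ with h | h | h
      · exact Or.inl (Or.inl ⟨h4 y hy h, h.le⟩)
      · exact Or.inl (Or.inr ⟨h.ge, h.le⟩)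
      · exact hcase h hy.2
    · rcases le_or_gt y τ with h | h
      · exact Or.inl (Or.inl ⟨hy, h⟩)
      · simp only [hU, mem_iUnion, exists_prop] at hy
        obtain ⟨R, hR, hyR⟩ := hy
        exact hcase h (hyR.2.trans (h5 R hR))
  have hlow : ((U ∩ Iic τ) ∪ (Ioc τ (cen Q) ∪ Ioc (cen Q) b)) ⊆ (vI Q ∪ U) ∩ Iic t := by
    rintro y (⟨hy, hy'⟩ | ⟨hy, hy'⟩ | ⟨hy, hy'⟩)
    · have : y ≤ τ := hy'
      exact ⟨Or.inr hy, show y ≤ t by linarith⟩
    · exact ⟨Or.inl ⟨by linarith, by linarith⟩, show y ≤ t by linarith⟩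
    · have h6 := min_le_left t (Q.y + Q.s)
      have h7 := min_le_right t (Q.y + Q.s)
      exact ⟨Or.inl ⟨by linarith, by linarith⟩, show y ≤ t by linarith⟩
  have hm1 : μ ((U ∩ Iic τ) ∪ (Ioc τ (cen Q) ∪ Ioc (cen Q) b)) =
      μ (U ∩ Iic τ) + (μ (Ioc τ (cen Q)) + μ (Ioc (cen Q) b)) := by
    rw [measure_union _ (measurableSet_Ioc.union measurableSet_Ioc),
      measure_union _ measurableSet_Ioc]
    · rw [Set.disjoint_left]
      intro y hy hy'
      exact absurd hy.2 (not_le.2 hy'.1)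
    · rw [Set.disjoint_left]
      rintro y ⟨-, hy⟩ (hy' | hy')
      · exact absurd hy (not_le.2 hy'.1)
      · exact absurd (show y ≤ τ from hy) (not_le.2 (h2.trans_lt hy'.1))
  have hv : volume ((vI Q ∪ U) ∩ Iic t) ≤ volume (U ∩ Iic τ) +
      (ENNReal.ofReal (cen Q - τ) + ENNReal.ofReal (b - cen Q)) := by
    calc volume ((vI Q ∪ U) ∩ Iic t)
        ≤ volume (((U ∩ Iic τ) ∪ Icc τ τ) ∪ (Ioc τ (cen Q) ∪ Ioc (cen Q) b)) := measure_mono hup
      _ ≤ (volume (U ∩ Iic τ) + volume (Icc τ τ)) +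
          (volume (Ioc τ (cen Q)) + volume (Ioc (cen Q) b)) :=
          (measure_union_le _ _).trans (add_le_add (measure_union_le _ _) (measure_union_le _ _))
      _ = _ := by rw [Real.volume_Icc, Real.volume_Ioc, Real.volume_Ioc]; simp
  have g1 := (hQ (cen Q - τ) (by linarith) (by rw [hc]; linarith)).1
  have g2 := (hQ (b - cen Q) (by linarith) (by
    have := min_le_right t (Q.y + Q.s)
    rw [hc]; linarith)).2
  rw [sub_sub_cancel] at g1
  rw [add_sub_cancel] at g2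
  calc κ * volume ((vI Q ∪ U) ∩ Iic t) ≤ κ * (volume (U ∩ Iic τ) +
      (ENNReal.ofReal (cen Q - τ) + ENNReal.ofReal (b - cen Q))) := by gcongr
    _ = κ * volume (U ∩ Iic τ) +
      (κ * ENNReal.ofReal (cen Q - τ) + κ * ENNReal.ofReal (b - cen Q)) := by
        rw [mul_add, mul_add]
    _ ≤ μ (U ∩ Iic τ) + (μ (Ioc τ (cen Q)) + μ (Ioc (cen Q) b)) := by gcongr
    _ = _ := hm1.symm
    _ ≤ _ := measure_mono hlow

theorem sect_aux {μ : Measure ℝ} {κ : ℝ≥0∞} : ∀ (n : ℕ) (F : Finset Sq), F.card = n →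
    (∀ Q ∈ F, HalfGood μ κ Q) → ∀ t : ℝ, (∀ Q ∈ F, cen Q ≤ t) →
    κ * volume ((⋃ Q ∈ F, vI Q) ∩ Iic t) ≤ μ ((⋃ Q ∈ F, vI Q) ∩ Iic t) := by
  classical
  intro n
  induction n using Nat.strong_induction_on with
  | _ n ih =>
    intro F hn hF t ht
    rcases F.eq_empty_or_nonempty with rfl | hne
    · simp
    by_cases hcont : ∃ P ∈ F, ∃ Q ∈ F, P ≠ Q ∧ vI P ⊆ vI Q
    · obtain ⟨P, hP, Q, hQ, hPQ, hsub⟩ := hcont
      have hU : (⋃ R ∈ F, vI R) = ⋃ R ∈ F.erase P, vI R := by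
        apply Subset.antisymm
        · intro y hy
          simp only [mem_iUnion, exists_prop] at hy ⊢
          obtain ⟨R, hR, hy⟩ := hy
          by_cases h : R = P
          · subst h
            exact ⟨Q, Finset.mem_erase.2 ⟨hPQ.symm, hQ⟩, hsub hy⟩
          · exact ⟨R, Finset.mem_erase.2 ⟨h, hR⟩, hy⟩
        · exact biUnion_subset_biUnion_left (Finset.erase_subset _ _)
      rw [hU]
      refine ih (F.erase P).card ?_ (F.erase P) rfl
        (fun R hR => hF R (Finset.mem_of_mem_erase hR)) t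
        (fun R hR => ht R (Finset.mem_of_mem_erase hR))
      rw [← hn]
      exact Finset.card_erase_lt_of_mem hP
    · push Not at hcont
      obtain ⟨Q, hQ, hmax⟩ := F.exists_max_image cen hne
      have hord : ∀ R ∈ F.erase Q, R.y ≤ Q.y ∧ R.y + R.s ≤ Q.y + Q.s := by
        intro R hR
        obtain ⟨hRQ, hRF⟩ := Finset.mem_erase.1 hR
        have hc := hmax R hRF
        have h1 := hcont R hRF Q hQ hRQ
        have h2 := hcont Q hQ R hRF hRQ.symm
        unfold cen at hc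
        constructor
        · by_contra h
          push Not at h
          exact h1 (Icc_subset_Icc h.le (by linarith))
        · by_contra h
          push Not at h
          exact h2 (Icc_subset_Icc (by linarith) h.le)
      have hcQ : cen Q = Q.y + Q.s / 2 := rfl
      have hs := Q.pos
      have hFi : (⋃ R ∈ F, vI R) = vI Q ∪ ⋃ R ∈ F.erase Q, vI R := by
        conv_lhs => rw [← Finset.insert_erase hQ]
        rw [Finset.set_biUnion_insert]
      obtain ⟨τ, h1, h2, h3, h4⟩ : ∃ τ : ℝ, Q.y ≤ τ ∧ τ ≤ cen Q ∧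
          (∀ R ∈ F.erase Q, cen R ≤ τ) ∧ ∀ y ∈ vI Q, y < τ → y ∈ ⋃ R ∈ F.erase Q, vI R := by
        rcases (F.erase Q).eq_empty_or_nonempty with he | he
        · refine ⟨Q.y, le_rfl, by linarith, ?_, ?_⟩
          · rw [he]; simp
          · intro y hy hy'
            exact absurd hy.1 (not_le.2 hy')
        · obtain ⟨P, hP, hPmax⟩ := (F.erase Q).exists_max_image cen he
          refine ⟨max Q.y (cen P), le_max_left _ _,
            max_le (by linarith) (hmax P (Finset.mem_of_mem_erase hP)),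
            fun R hR => (hPmax R hR).trans (le_max_right _ _), ?_⟩
          intro y hy hy'
          rw [lt_max_iff] at hy'
          rcases hy' with h | h
          · exact absurd hy.1 (not_le.2 h)
          · simp only [mem_iUnion, exists_prop]
            refine ⟨P, hP, (hord P hP).1.trans hy.1, ?_⟩
            have : cen P = P.y + P.s / 2 := rfl
            have := P.pos
            linarith
      rw [hFi]
      refine sect_step (hF Q hQ) h1 h2 (ht Q hQ) h4 (fun R hR => (hord R hR).2) ?_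
      refine ih (F.erase Q).card ?_ (F.erase Q) rfl
        (fun R hR => hF R (Finset.mem_of_mem_erase hR)) τ h3
      rw [← hn]
      exact Finset.card_erase_lt_of_mem hQ

theorem sect {μ : Measure ℝ} {κ : ℝ≥0∞} (F : Finset Sq) (hF : ∀ Q ∈ F, HalfGood μ κ Q) :
    κ * volume (⋃ Q ∈ F, vI Q) ≤ μ (⋃ Q ∈ F, vI Q) := by
  classical
  obtain ⟨t, ht⟩ : ∃ t : ℝ, ∀ Q ∈ F, Q.y + Q.s ≤ t := by
    rcases F.eq_empty_or_nonempty with rfl | hne
    · exact ⟨0, by simp⟩
    · obtain ⟨Q, hQ, hmax⟩ := F.exists_max_image (fun Q => Q.y + Q.s) hne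
      exact ⟨_, hmax⟩
  have h := sect_aux F.card F rfl hF t (fun Q hQ => by
    have h1 := ht Q hQ
    have h2 := Q.pos
    unfold cen
    linarith)
  have hU : (⋃ Q ∈ F, vI Q) ∩ Iic t = ⋃ Q ∈ F, vI Q := by
    rw [inter_eq_left]
    intro y hy
    simp only [mem_iUnion, exists_prop] at hy
    obtain ⟨Q, hQ, hy⟩ := hy
    exact hy.2.trans (ht Q hQ)
  rwa [hU] at h

/-- the form used in the plane -/
theorem plane {m : ℝ × ℝ → ℝ≥0∞} (hm : Measurable m) {κ : ℝ≥0∞} (F : Finset Sq)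
    (hF : ∀ Q ∈ F, ∀ x ∈ Icc Q.x (Q.x + Q.s), ∀ u : ℝ, 0 ≤ u → u ≤ Q.s / 2 →
      κ * ENNReal.ofReal u ≤ ∫⁻ y in Ioc (cen Q - u) (cen Q), m (x, y) ∧
      κ * ENNReal.ofReal u ≤ ∫⁻ y in Ioc (cen Q) (cen Q + u), m (x, y)) :
    κ * volume (⋃ Q ∈ F, Q.set) ≤ ∫⁻ p, m p := by
  classical
  rw [Measure.volume_eq_prod, lintegral_prod _ hm.aemeasurable,
    Measure.prod_apply (measurableSet_union F)]
  have hsec : ∀ x : ℝ, Prod.mk x ⁻¹' (⋃ Q ∈ F, Q.set) =
      ⋃ Q ∈ F.filter (fun Q => x ∈ Icc Q.x (Q.x + Q.s)), vI Q := by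
    intro x
    ext y
    simp only [mem_preimage, mem_iUnion, exists_prop, Finset.mem_filter]
    constructor
    · rintro ⟨Q, hQ, h1, h2⟩
      exact ⟨Q, ⟨hQ, h1⟩, h2⟩
    · rintro ⟨Q, ⟨hQ, h1⟩, h2⟩
      exact ⟨Q, hQ, h1, h2⟩
  have hmeas : Measurable fun x : ℝ => volume (Prod.mk x ⁻¹' (⋃ Q ∈ F, Q.set)) :=
    measurable_measure_prodMk_left (measurableSet_union F)
  rw [← lintegral_const_mul _ hmeas]
  apply lintegral_mono
  intro x
  show κ * volume (Prod.mk x ⁻¹' (⋃ Q ∈ F, Q.set)) ≤ ∫⁻ y, m (x, y)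
  rw [hsec x]
  have hmx : Measurable fun y => m (x, y) := hm.comp measurable_prodMk_left
  have h1 := sect (μ := volume.withDensity fun y => m (x, y)) (κ := κ)
    (F.filter (fun Q => x ∈ Icc Q.x (Q.x + Q.s))) (by
      intro Q hQ u hu hu'
      obtain ⟨hQF, hx⟩ := Finset.mem_filter.1 hQ
      rw [withDensity_apply _ measurableSet_Ioc, withDensity_apply _ measurableSet_Ioc]
      exact hF Q hQF x hx u hu hu')
  refine h1.trans ?_
  rw [withDensity_apply _ (measurableSet_vU _)]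
  exact setLIntegral_le_lintegral _ _

end Pool.Agent.Helper14.FracRado
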