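import Pool.Agent.Helper14.FracRado.Main

/-!
# The constant `1/4` of the fractional theorem is best possible
-/

open MeasureTheory Set Pool.Agent.Helper15.Rado
open scoped ENNReal NNReal

namespace Pool.Agent.Helper14.FracRado

theorem sharp {c : ℝ} (hc : 1 / 4 < c) : ∃ F : Finset Sq, ∀ x : Sq → ℝ, (∀ Q, 0 ≤ x Q) →
    (∀ p : ℝ × ℝ, ∑ Q ∈ F, ((interior Q.set).indicator (fun _ => x Q) p) ≤ 1) →
    ∑ Q ∈ F, x Q * Q.s ^ 2 < c * area F := by
  classical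
  obtain ⟨e, he0, he1, he⟩ : ∃ e : ℝ, 0 < e ∧ e < 1 ∧ (1 + e) ^ 2 < 4 * c := by
    have h1 : 0 < 4 * c - 1 := by linarith
    refine ⟨min (1 / 2) ((4 * c - 1) / 4), lt_min (by norm_num) (by positivity),
      (min_le_left _ _).trans_lt (by norm_num), ?_⟩
    have h2 := min_le_left (1 / 2 : ℝ) ((4 * c - 1) / 4)
    have h3 := min_le_right (1 / 2 : ℝ) ((4 * c - 1) / 4)
    have h4 : 0 < min (1 / 2 : ℝ) ((4 * c - 1) / 4) := lt_min (by norm_num) (by positivity)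
    nlinarith
  have hp : (0:ℝ) < 1 + e := by linarith
  set F : Finset Sq := {⟨-1, -1, 1 + e, hp⟩, ⟨-e, -1, 1 + e, hp⟩, ⟨-1, -e, 1 + e, hp⟩,
    ⟨-e, -e, 1 + e, hp⟩} with hF
  have hFm : ∀ Q ∈ F, Q.s = 1 + e ∧ ((0, 0) : ℝ × ℝ) ∈ interior Q.set := by
    intro Q hQ
    rw [interior_set]
    simp only [hF, Finset.mem_insert, Finset.mem_singleton] at hQ
    rcases hQ with rfl | rfl | rfl | rfl
    · exact ⟨rfl, ⟨by simp only [mem_Ioo]; constructor <;> linarith,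
        by simp only [mem_Ioo]; constructor <;> linarith⟩⟩
    · exact ⟨rfl, ⟨by simp only [mem_Ioo]; constructor <;> linarith,
        by simp only [mem_Ioo]; constructor <;> linarith⟩⟩
    · exact ⟨rfl, ⟨by simp only [mem_Ioo]; constructor <;> linarith,
        by simp only [mem_Ioo]; constructor <;> linarith⟩⟩
    · exact ⟨rfl, ⟨by simp only [mem_Ioo]; constructor <;> linarith,
        by simp only [mem_Ioo]; constructor <;> linarith⟩⟩
  refine ⟨F, fun x hx hp1 => ?_⟩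
  have h1 := hp1 (0, 0)
  have h2 : ∑ Q ∈ F, ((interior Q.set).indicator (fun _ => x Q) (0, 0)) = ∑ Q ∈ F, x Q :=
    Finset.sum_congr rfl fun Q hQ => indicator_of_mem (hFm Q hQ).2 _
  rw [h2] at h1
  have h3 : ∑ Q ∈ F, x Q * Q.s ^ 2 = (∑ Q ∈ F, x Q) * (1 + e) ^ 2 := by
    rw [Finset.sum_mul]
    exact Finset.sum_congr rfl fun Q hQ => by rw [(hFm Q hQ).1]
  have h4 : 4 ≤ area F := by
    have hsub : Icc (-1:ℝ) 1 ×ˢ Icc (-1:ℝ) 1 ⊆ ⋃ Q ∈ F, Q.set := by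
      rintro ⟨a, b⟩ ⟨⟨h5, h6⟩, h7, h8⟩
      simp only at h5 h6 h7 h8
      simp only [mem_iUnion, exists_prop]
      rcases le_total a 0 with ha | ha <;> rcases le_total b 0 with hb | hb
      · refine ⟨⟨-1, -1, 1 + e, hp⟩, by simp [hF], ⟨?_, ?_⟩, ?_, ?_⟩ <;> simp only <;> linarith
      · refine ⟨⟨-1, -e, 1 + e, hp⟩, by simp [hF], ⟨?_, ?_⟩, ?_, ?_⟩ <;> simp only <;> linarith
      · refine ⟨⟨-e, -1, 1 + e, hp⟩, by simp [hF], ⟨?_, ?_⟩, ?_, ?_⟩ <;> simp only <;> linarith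
      · refine ⟨⟨-e, -e, 1 + e, hp⟩, by simp [hF], ⟨?_, ?_⟩, ?_, ?_⟩ <;> simp only <;> linarith
    have h9 := ENNReal.toReal_mono (volume_ne_top F) (measure_mono (μ := volume) hsub)
    rw [Measure.volume_eq_prod, Measure.prod_prod, Real.volume_Icc] at h9
    norm_num at h9
    exact h9
  rw [h3]
  calc (∑ Q ∈ F, x Q) * (1 + e) ^ 2 ≤ 1 * (1 + e) ^ 2 := by gcongr
    _ < 4 * c := by linarith
    _ = c * 4 := by ring
    _ ≤ c * area F := mul_le_mul_of_nonneg_left h4 (by linarith)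

end Pool.Agent.Helper14.FracRado
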