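import Pool.Agent.Helper14.FracRado.Sect

/-!
# The strip method

The plane is cut into horizontal strips of height `2 ℓ` with a random offset; in each strip one
takes an optimal family with nonoverlapping projections among the squares which lie in the strip
and meet its central line.
-/

open MeasureTheory Set Pool.Agent.Helper15.Rado
open scoped ENNReal NNReal

namespace Pool.Agent.Helper14.FracRado

/-- the points `p` of `Q` such that `Q` lies in the strip of height `2 ℓ` around the horizontal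
line through `p` -/
def band (ℓ : ℝ) (Q : Sq) : Set (ℝ × ℝ) :=
  Icc Q.x (Q.x + Q.s) ×ˢ Icc (max Q.y (Q.y + Q.s - ℓ)) (min (Q.y + Q.s) (Q.y + ℓ))

theorem mem_band {ℓ : ℝ} {Q : Sq} {p : ℝ × ℝ} : p ∈ band ℓ Q ↔
    (Q.x ≤ p.1 ∧ p.1 ≤ Q.x + Q.s) ∧ (Q.y ≤ p.2 ∧ Q.y + Q.s - ℓ ≤ p.2) ∧
      (p.2 ≤ Q.y + Q.s ∧ p.2 ≤ Q.y + ℓ) := by
  simp only [band, mem_prod, mem_Icc, max_le_iff, le_min_iff]

theorem measurableSet_band (ℓ : ℝ) (Q : Sq) : MeasurableSet (band ℓ Q) :=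
  measurableSet_Icc.prod measurableSet_Icc

/-- twice the largest side of a member of `F` whose band contains the point -/
noncomputable def m2 (ℓ : ℝ) (F : Finset Sq) (z : ℝ × ℝ) : ℝ≥0∞ :=
  F.sup fun Q => (band ℓ Q).indicator (fun _ => ENNReal.ofReal (2 * Q.s)) z

theorem measurable_sup {ι α : Type*} [MeasurableSpace α] (s : Finset ι) (f : ι → α → ℝ≥0∞)
    (hf : ∀ i ∈ s, Measurable (f i)) : Measurable (fun a => s.sup (fun i => f i a)) := by
  classical
  induction s using Finset.induction_on with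
  | empty => simp
  | insert i s hi ih =>
    simp only [Finset.sup_insert]
    exact (hf i (Finset.mem_insert_self _ _)).sup
      (ih fun j hj => hf j (Finset.mem_insert_of_mem hj))

theorem measurable_m2 (ℓ : ℝ) (F : Finset Sq) : Measurable (m2 ℓ F) :=
  measurable_sup F _ fun Q _ => measurable_const.indicator (measurableSet_band ℓ Q)

/-- the members of `F` which meet the line `y = c` and lie in the strip of height `2 ℓ` around it -/
noncomputable def fam (ℓ : ℝ) (F : Finset Sq) (c : ℝ) : Finset Sq :=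
  F.filter fun Q => (Q.y ≤ c ∧ Q.y + Q.s - ℓ ≤ c) ∧ (c ≤ Q.y + Q.s ∧ c ≤ Q.y + ℓ)

theorem section_le (ℓ : ℝ) (F : Finset Sq) (c : ℝ) :
    ∫⁻ x, m2 ℓ F (x, c) ≤ volume (⋃ Q ∈ (fam ℓ F c).image (up c) ∪
      ((fam ℓ F c).image (up c)).image (dn c), Q.set) := by
  rw [Measure.volume_eq_prod, Measure.prod_apply (measurableSet_union _)]
  apply lintegral_mono
  intro x
  show m2 ℓ F (x, c) ≤ volume (Prod.mk x ⁻¹' (⋃ Q ∈ (fam ℓ F c).image (up c) ∪
      ((fam ℓ F c).image (up c)).image (dn c), Q.set))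
  unfold m2
  apply Finset.sup_le
  intro Q hQ
  by_cases h : (x, c) ∈ band ℓ Q
  · rw [indicator_of_mem h]
    obtain ⟨h1, h2, h3⟩ := mem_band.1 h
    have hf : Q ∈ fam ℓ F c := Finset.mem_filter.2 ⟨hQ, h2, h3⟩
    have hu : up c Q ∈ (fam ℓ F c).image (up c) := Finset.mem_image_of_mem _ hf
    have hd : dn c (up c Q) ∈ ((fam ℓ F c).image (up c)).image (dn c) :=
      Finset.mem_image_of_mem _ hu
    have hsub : Icc (c - Q.s) (c + Q.s) ⊆ Prod.mk x ⁻¹' (⋃ Q ∈ (fam ℓ F c).image (up c) ∪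
        ((fam ℓ F c).image (up c)).image (dn c), Q.set) := by
      intro y hy
      simp only [mem_preimage, mem_iUnion, exists_prop]
      rcases le_total c y with h' | h'
      · refine ⟨up c Q, Finset.mem_union_left _ hu, h1, h', hy.2⟩
      · refine ⟨dn c (up c Q), Finset.mem_union_right _ hd, h1, hy.1, ?_⟩
        show y ≤ c - Q.s + Q.s
        linarith
    calc ENNReal.ofReal (2 * Q.s) = volume (Icc (c - Q.s) (c + Q.s)) := by
          rw [Real.volume_Icc]; congr 1; ring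
      _ ≤ _ := measure_mono hsub
  · rw [indicator_of_notMem h]
    exact zero_le

theorem strip_one (ℓ : ℝ) (F : Finset Sq) (c : ℝ) :
    ∃ G ⊆ F, (∀ Q ∈ G, c - ℓ ≤ Q.y ∧ Q.y + Q.s ≤ c + ℓ) ∧
      (∀ P ∈ G, ∀ Q ∈ G, P ≠ Q → ¬ ov P Q) ∧
      ∫⁻ x, m2 ℓ F (x, c) ≤ 4 * ∑ Q ∈ G, ENNReal.ofReal (Q.s ^ 2) := by
  obtain ⟨G, hGF, hno, hG⟩ := strip_line c (fam ℓ F c)
  refine ⟨G, hGF.trans (Finset.filter_subset _ _), ?_, ?_, ?_⟩
  · intro Q hQ
    obtain ⟨-, ⟨h1, h2⟩, h3, h4⟩ := Finset.mem_filter.1 (hGF hQ)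
    exact ⟨by linarith, by linarith⟩
  · exact fun P hP Q hQ hPQ => not_ov_of_proj (hno P hP Q hQ hPQ)
  · refine (section_le ℓ F c).trans ?_
    rw [← ENNReal.ofReal_toReal (volume_ne_top _)]
    have h1 : (volume (⋃ Q ∈ (fam ℓ F c).image (up c) ∪
      ((fam ℓ F c).image (up c)).image (dn c), Q.set)).toReal ≤ 4 * ∑ Q ∈ G, Q.s ^ 2 := by
      unfold area at hG
      linarith
    calc ENNReal.ofReal _ ≤ ENNReal.ofReal (4 * ∑ Q ∈ G, Q.s ^ 2) := ENNReal.ofReal_le_ofReal h1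
      _ = 4 * ∑ Q ∈ G, ENNReal.ofReal (Q.s ^ 2) := by
          rw [ENNReal.ofReal_mul (by norm_num), ENNReal.ofReal_sum_of_nonneg
            (fun Q _ => sq_nonneg _)]
          congr 1
          norm_num

/-! ### Unfolding on the line -/

theorem line_floor {L : ℝ} (hL : 0 < L) {a x : ℝ} {i : ℤ} (hx : x ∈ Ico (0:ℝ) L)
    (h : x + L * i = a) : i = ⌊a / L⌋ := by
  symm
  rw [Int.floor_eq_iff]
  constructor
  · rw [le_div_iff₀ hL]
    linarith [hx.1]
  · rw [div_lt_iff₀ hL]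
    linarith [hx.2]

theorem line_unfold {L : ℝ} (hL : 0 < L) {w : ℝ → ℝ≥0∞} (hw : Measurable w) :
    ∫⁻ u in Ico 0 L, ∑' k : ℤ, w (u + L * k) = ∫⁻ y, w y := by
  have hm' : ∀ k : ℤ, AEMeasurable (fun u => w (u + L * k)) (volume.restrict (Ico 0 L)) :=
    fun k => (hw.comp (measurable_id.add_const (L * k))).aemeasurable
  rw [lintegral_tsum hm']
  have h1 : ∀ k : ℤ, ∫⁻ u in Ico 0 L, w (u + L * k)
      = ∫⁻ p in (fun p => p + L * k) '' Ico 0 L, w p := by
    intro k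
    have hm : MeasurePreserving (fun p : ℝ => p + L * k) volume volume :=
      measurePreserving_add_right volume _
    have he : MeasurableEmbedding (fun p : ℝ => p + L * k) := measurableEmbedding_addRight _
    exact hm.setLIntegral_comp_emb he w (Ico 0 L)
  simp only [h1]
  have hun : (⋃ k : ℤ, (fun p : ℝ => p + L * k) '' Ico 0 L) = univ := by
    rw [eq_univ_iff_forall]
    intro a
    rw [mem_iUnion]
    refine ⟨⌊a / L⌋, a - L * ⌊a / L⌋, ⟨?_, ?_⟩, ?_⟩
    · have := Int.floor_le (a / L)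
      rw [le_div_iff₀ hL] at this
      linarith
    · have := Int.lt_floor_add_one (a / L)
      rw [div_lt_iff₀ hL] at this
      linarith
    · simp
  have hpw : Pairwise (Function.onFun Disjoint fun k : ℤ => (fun p : ℝ => p + L * k) '' Ico 0 L) := by
    intro i i' hne
    rw [Function.onFun, Set.disjoint_left]
    rintro a ⟨x, hx, h1⟩ ⟨x', hx', h2⟩
    apply hne
    simp only at h1 h2
    rw [line_floor hL hx h1, line_floor hL hx' h2]
  rw [← lintegral_iUnion (fun k => (measurableEmbedding_addRight _).measurableSet_image.2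
      measurableSet_Ico) hpw, hun, Measure.restrict_univ]

theorem line_exists_ge {L : ℝ} (hL : 0 < L) {w : ℝ → ℝ≥0∞} (hw : Measurable w)
    (hfin : ∫⁻ p, w p ≠ ⊤) :
    ∃ u : ℝ, ∫⁻ p, w p ≤ (∑' k : ℤ, w (u + L * k)) * ENNReal.ofReal L := by
  have hv : volume (Ico 0 L) = ENNReal.ofReal L := by rw [Real.volume_Ico, sub_zero]
  have h0 : volume (Ico 0 L) ≠ 0 := by
    rw [hv]
    simp [hL]
  have h1 : volume (Ico 0 L) ≠ ⊤ := by
    rw [hv]
    exact ENNReal.ofReal_ne_top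
  obtain ⟨u, -, hu⟩ := exists_setLAverage_le h0 measurableSet_Ico.nullMeasurableSet
    (f := fun u => ∑' k : ℤ, w (u + L * k)) (by rw [line_unfold hL hw]; exact hfin)
  refine ⟨u, ?_⟩
  rw [setLAverage_eq, line_unfold hL hw, ENNReal.div_le_iff h0 h1, hv] at hu
  exact hu

theorem m2_le (ℓ : ℝ) (F : Finset Sq) (z : ℝ × ℝ) :
    m2 ℓ F z ≤ ∑ Q ∈ F, Q.set.indicator (fun _ => ENNReal.ofReal (2 * Q.s)) z := by
  unfold m2
  apply Finset.sup_le
  intro Q hQ
  refine le_trans ?_ (Finset.single_le_sum (f := fun Q : Sq =>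
    Q.set.indicator (fun _ => ENNReal.ofReal (2 * Q.s)) z) (fun _ _ => zero_le) hQ)
  apply indicator_le_indicator_of_subset
  · rintro p hp
    obtain ⟨h1, h2, h3⟩ := mem_band.1 hp
    exact ⟨h1, h2.1, h3.1⟩
  · intro _; exact zero_le

theorem lintegral_m2_ne_top (ℓ : ℝ) (F : Finset Sq) : ∫⁻ z, m2 ℓ F z ≠ ⊤ := by
  apply ne_of_lt
  calc ∫⁻ z, m2 ℓ F z ≤ ∫⁻ z, ∑ Q ∈ F, Q.set.indicator (fun _ => ENNReal.ofReal (2 * Q.s)) z :=
        lintegral_mono fun z => m2_le ℓ F z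
    _ = ∑ Q ∈ F, ∫⁻ z, Q.set.indicator (fun _ => ENNReal.ofReal (2 * Q.s)) z :=
        lintegral_finset_sum _ fun Q _ => measurable_const.indicator (measurableSet_sq Q)
    _ < ⊤ := by
        apply ENNReal.sum_lt_top.2
        intro Q _
        rw [lintegral_indicator (measurableSet_sq Q), setLIntegral_const, volume_sq]
        exact ENNReal.mul_lt_top ENNReal.ofReal_lt_top ENNReal.ofReal_lt_top

/-- the strip theorem -/
theorem strip {ℓ : ℝ} (hℓ : 0 < ℓ) (F : Finset Sq) :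
    ∃ G ⊆ F, (∀ P ∈ G, ∀ Q ∈ G, P ≠ Q → ¬ ov P Q) ∧
      ∫⁻ z, m2 ℓ F z ≤ ENNReal.ofReal (8 * ℓ) * ∑ Q ∈ G, ENNReal.ofReal (Q.s ^ 2) := by
  classical
  have hmz := measurable_m2 ℓ F
  have hΦ : Measurable fun c : ℝ => ∫⁻ x, m2 ℓ F (x, c) :=
    Measurable.lintegral_prod_left' hmz
  have htot : ∫⁻ z, m2 ℓ F z = ∫⁻ c, ∫⁻ x, m2 ℓ F (x, c) := by
    rw [Measure.volume_eq_prod, lintegral_prod_symm _ hmz.aemeasurable]
  obtain ⟨u, hu⟩ := line_exists_ge (L := 2 * ℓ) (by positivity) hΦ (by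
    rw [← htot]; exact lintegral_m2_ne_top ℓ F)
  rw [← htot] at hu
  choose G hGF hGs hGno hG using fun k : ℤ => strip_one ℓ F (u + 2 * ℓ * k)
  have huniq : ∀ Q k k', Q ∈ G k → Q ∈ G k' → k = k' := by
    intro Q k k' h h'
    obtain ⟨a1, a2⟩ := hGs k Q h
    obtain ⟨b1, b2⟩ := hGs k' Q h'
    have hs := Q.pos
    by_contra hne
    have h1 : (1:ℝ) ≤ |(k:ℝ) - k'| := by
      have h2 : (1:ℤ) ≤ |k - k'| := Int.one_le_abs (sub_ne_zero.2 hne)
      exact_mod_cast h2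
    rcases le_abs.1 h1 with h2 | h2
    · nlinarith
    · nlinarith
  refine ⟨F.filter fun Q => ∃ k, Q ∈ G k, Finset.filter_subset _ _, ?_, ?_⟩
  · intro P hP Q hQ hPQ hov
    obtain ⟨-, k, hk⟩ := Finset.mem_filter.1 hP
    obtain ⟨-, k', hk'⟩ := Finset.mem_filter.1 hQ
    by_cases h : k = k'
    · subst h
      exact hGno k P hk Q hk' hPQ hov
    · obtain ⟨a1, a2⟩ := hGs k P hk
      obtain ⟨b1, b2⟩ := hGs k' Q hk'
      obtain ⟨-, o1, o2⟩ := hov
      have h1 : (1:ℝ) ≤ |(k:ℝ) - k'| := by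
        have h2 : (1:ℤ) ≤ |k - k'| := Int.one_le_abs (sub_ne_zero.2 h)
        exact_mod_cast h2
      rcases le_abs.1 h1 with h2 | h2
      · nlinarith
      · nlinarith
  · have h1 : ∑' k : ℤ, ∑ Q ∈ G k, ENNReal.ofReal (Q.s ^ 2) ≤
        ∑ Q ∈ F.filter fun Q => ∃ k, Q ∈ G k, ENNReal.ofReal (Q.s ^ 2) := by
      have e1 : ∀ k : ℤ, ∑ Q ∈ G k, ENNReal.ofReal (Q.s ^ 2) =
          ∑ Q ∈ F.filter fun Q => ∃ k, Q ∈ G k, if Q ∈ G k then ENNReal.ofReal (Q.s ^ 2) else 0 := by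
        intro k
        rw [Finset.sum_ite_mem]
        congr 1
        ext Q
        simp only [Finset.mem_inter, Finset.mem_filter]
        constructor
        · intro h; exact ⟨⟨hGF k h, k, h⟩, h⟩
        · intro h; exact h.2
      simp only [e1]
      rw [Summable.tsum_finsetSum (fun _ _ => ENNReal.summable)]
      apply Finset.sum_le_sum
      intro Q hQ
      obtain ⟨-, k, hk⟩ := Finset.mem_filter.1 hQ
      rw [tsum_eq_single k]
      · rw [if_pos hk]
      · intro k' hk'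
        rw [if_neg (fun h => hk' (huniq Q k' k h hk))]
    calc ∫⁻ z, m2 ℓ F z ≤ (∑' k : ℤ, ∫⁻ x, m2 ℓ F (x, u + 2 * ℓ * k)) * ENNReal.ofReal (2 * ℓ) :=
          hu
      _ ≤ (∑' k : ℤ, 4 * ∑ Q ∈ G k, ENNReal.ofReal (Q.s ^ 2)) * ENNReal.ofReal (2 * ℓ) := by
          gcongr with k
          exact hG k
      _ = (4 * ∑' k : ℤ, ∑ Q ∈ G k, ENNReal.ofReal (Q.s ^ 2)) * ENNReal.ofReal (2 * ℓ) := by
          rw [ENNReal.tsum_mul_left]
      _ ≤ (4 * ∑ Q ∈ F.filter fun Q => ∃ k, Q ∈ G k, ENNReal.ofReal (Q.s ^ 2)) *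
          ENNReal.ofReal (2 * ℓ) := by gcongr
      _ = _ := by
          have : ENNReal.ofReal (8 * ℓ) = 4 * ENNReal.ofReal (2 * ℓ) := by
            rw [show (8 * ℓ) = 4 * (2 * ℓ) by ring, ENNReal.ofReal_mul (by norm_num)]
            norm_num
          rw [this]
          ring

end Pool.Agent.Helper14.FracRado
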