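import Pool.Agent.Helper14.FracRado.Ratio
import Pool.Agent.Helper14.FracRado.Kap
import Pool.Agent.Helper19.Rado.TwoMain

/-!
# Two side lengths, with the strip method
-/

open MeasureTheory Set Pool.Agent.Helper15.Rado Pool.Agent.Helper19.Rado
open scoped ENNReal NNReal

namespace Pool.Agent.Helper14.FracRado

/-- the strip method at the scale of the large squares -/
theorem two_strip {a b : ℝ} (hb : 0 < b) (hab : b ≤ a) (F : Finset Sq)
    (hF : ∀ Q ∈ F, Q.s = a ∨ Q.s = b) :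
    ∃ G ⊆ F, No G ∧ ((1 - b / a) * area (F.filter (fun Q => Q.s = a))
      + b / a * area F) / 4 ≤ area G := by
  have ha : 0 < a := hb.trans_le hab
  obtain ⟨G, hGF, hno, hG⟩ := strip_real ha F
  refine ⟨G, hGF, hno, ?_⟩
  set L := F.filter (fun Q => Q.s = a) with hL
  have hLF : L ⊆ F := Finset.filter_subset _ _
  have hband : ∀ Q ∈ F, Q.set ⊆ band a Q := by
    rintro Q hQ ⟨p, q⟩ ⟨⟨h1, h2⟩, h3, h4⟩
    have hs : Q.s ≤ a := by rcases hF Q hQ with h | h <;> linarith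
    have hs0 := Q.pos
    simp only at h1 h2 h3 h4
    exact mem_band.2 ⟨⟨h1, h2⟩, ⟨h3, by simp only; linarith⟩, h4, by simp only; linarith⟩
  have hm : ∀ Q ∈ F, ∀ z ∈ Q.set, ENNReal.ofReal (2 * Q.s) ≤ m2 a F z := by
    intro Q hQ z hz
    calc ENNReal.ofReal (2 * Q.s) = (band a Q).indicator (fun _ => ENNReal.ofReal (2 * Q.s)) z := by
          rw [indicator_of_mem (hband Q hQ hz)]
      _ ≤ _ := Finset.le_sup (f := fun Q : Sq =>
          (band a Q).indicator (fun _ => ENNReal.ofReal (2 * Q.s)) z) hQ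
  have hUL : (⋃ Q ∈ L, Q.set) ⊆ ⋃ Q ∈ F, Q.set := biUnion_subset_biUnion_left hLF
  have hmL := measurableSet_union L
  have hmF := measurableSet_union F
  have h1 : ENNReal.ofReal (2 * a) * volume (⋃ Q ∈ L, Q.set) +
      ENNReal.ofReal (2 * b) * volume ((⋃ Q ∈ F, Q.set) \ ⋃ Q ∈ L, Q.set) ≤ ∫⁻ z, m2 a F z := by
    calc ENNReal.ofReal (2 * a) * volume (⋃ Q ∈ L, Q.set) +
          ENNReal.ofReal (2 * b) * volume ((⋃ Q ∈ F, Q.set) \ ⋃ Q ∈ L, Q.set)
        = (∫⁻ _ in ⋃ Q ∈ L, Q.set, ENNReal.ofReal (2 * a)) +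
          ∫⁻ _ in (⋃ Q ∈ F, Q.set) \ ⋃ Q ∈ L, Q.set, ENNReal.ofReal (2 * b) := by
          rw [setLIntegral_const, setLIntegral_const]
      _ ≤ (∫⁻ z in ⋃ Q ∈ L, Q.set, m2 a F z) +
          ∫⁻ z in (⋃ Q ∈ F, Q.set) \ ⋃ Q ∈ L, Q.set, m2 a F z := by
          apply add_le_add
          · apply setLIntegral_mono' hmL
            intro z hz
            simp only [mem_iUnion, exists_prop] at hz
            obtain ⟨Q, hQ, hz⟩ := hz
            have h2 := hm Q (hLF hQ) z hz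
            rwa [(Finset.mem_filter.1 hQ).2] at h2
          · apply setLIntegral_mono' (hmF.diff hmL)
            rintro z ⟨hz, -⟩
            simp only [mem_iUnion, exists_prop] at hz
            obtain ⟨Q, hQ, hz⟩ := hz
            refine le_trans (ENNReal.ofReal_le_ofReal ?_) (hm Q hQ z hz)
            rcases hF Q hQ with h | h <;> linarith
      _ = ∫⁻ z in (⋃ Q ∈ L, Q.set) ∪ ((⋃ Q ∈ F, Q.set) \ ⋃ Q ∈ L, Q.set), m2 a F z := by
          rw [lintegral_union (hmF.diff hmL) disjoint_sdiff_right]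
      _ ≤ _ := setLIntegral_le_lintegral _ _
  have h2 := ENNReal.toReal_mono (lintegral_m2_ne_top _ F) h1
  have hfd : volume ((⋃ Q ∈ F, Q.set) \ ⋃ Q ∈ L, Q.set) ≠ ⊤ :=
    ne_top_of_le_ne_top (volume_ne_top F) (measure_mono diff_subset)
  rw [ENNReal.toReal_add (ENNReal.mul_ne_top ENNReal.ofReal_ne_top (volume_ne_top L))
    (ENNReal.mul_ne_top ENNReal.ofReal_ne_top hfd), ENNReal.toReal_mul, ENNReal.toReal_mul,
    ENNReal.toReal_ofReal (by positivity), ENNReal.toReal_ofReal (by positivity),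
    measure_sdiff hUL hmL.nullMeasurableSet (volume_ne_top L),
    ENNReal.toReal_sub_of_le (measure_mono hUL) (volume_ne_top F)] at h2
  change 2 * a * area L + 2 * b * (area F - area L) ≤ _ at h2
  have h3 : 2 * a * area L + 2 * b * (area F - area L) ≤ 8 * a * area G := h2.trans hG
  have h4 : b = b / a * a := by field_simp
  have h5 : 8 * a * (((1 - b / a) * area L + b / a * area F) / 4) ≤ 8 * a * area G := by
    refine le_trans (le_of_eq ?_) h3
    field_simp
    ring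
  exact le_of_mul_le_mul_left h5 (by positivity)

theorem two_a {a b : ℝ} (hb : 0 < b) (hab : b ≤ a) (F : Finset Sq)
    (hF : ∀ Q ∈ F, Q.s = a ∨ Q.s = b) :
    ∃ G ⊆ F, No G ∧ (b / a) / (2 * (1 + b / a)) * area F ≤ area G := by
  have ha : 0 < a := hb.trans_le hab
  obtain ⟨G, hGF, hno, hG⟩ := ratio_one (a := b) (r := a / b) hb
    ((one_le_div hb).2 hab) F (by
      intro Q hQ
      have h1 : a / b * b = a := by field_simp
      rw [h1]
      rcases hF Q hQ with h | h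
      · exact ⟨by linarith, by linarith⟩
      · exact ⟨by linarith, by linarith⟩)
  refine ⟨G, hGF, hno, ?_⟩
  have h1 : (b / a) / (2 * (1 + b / a)) = 1 / (2 + 2 * (a / b)) := by
    field_simp
    ring
  rw [h1, one_div, inv_mul_le_iff₀ (by positivity)]
  exact hG

theorem two_b {a b : ℝ} (hb : 0 < b) (hab : b ≤ a) (hμ : b / a ≤ 1 / 2) (F : Finset Sq)
    (hF : ∀ Q ∈ F, Q.s = a ∨ Q.s = b) :
    ∃ G ⊆ F, No G ∧ ((b / a) / 4 + (1 - b / a) ^ 2 / (4 - 2 * (b / a) + 3 * (b / a) ^ 2))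
      * area F ≤ area G := by
  have ha : 0 < a := hb.trans_le hab
  have hμ0 : 0 < b / a := div_pos hb ha
  have h1 := two_first hb hab (ξ := 1 / 4) (by norm_num) le_rfl (by nlinarith) F hF
  have h2 := two_strip hb hab F hF
  set μ := b / a with hμdef
  have hd : 0 < 4 - 2 * μ + 3 * μ ^ 2 := by nlinarith
  obtain ⟨G, hG, hG', hv⟩ := combine (x := 4 * (1 - μ) / (4 - 2 * μ + 3 * μ ^ 2))
    (div_nonneg (by linarith) hd.le) (by rw [div_le_one hd]; nlinarith) h1 h2
  refine ⟨G, hG, hG', le_trans (le_of_eq ?_) hv⟩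
  have h3 : (1 - 1 / 4 * (4 + 2 * μ + 3 * μ ^ 2)) / 4
      = -((4 - 2 * μ + 3 * μ ^ 2) - 4 * (1 - μ)) / 16 := by ring
  rw [h3]
  generalize 4 - 2 * μ + 3 * μ ^ 2 = d at hd
  have hd' : d ≠ 0 := hd.ne'
  field_simp
  ring

theorem two_c {a b : ℝ} (hb : 0 < b) (hab : b ≤ a) (F : Finset Sq)
    (hF : ∀ Q ∈ F, Q.s = a ∨ Q.s = b) :
    ∃ G ⊆ F, No G ∧ 37 / 200 * area F ≤ area G := by
  have ha : 0 < a := hb.trans_le hab
  have hμ0 : 0 < b / a := div_pos hb ha
  have hμ1 : b / a ≤ 1 := (div_le_one ha).2 hab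
  have hA : 0 ≤ area F := area_nonneg F
  rcases le_total (37 / 63) (b / a) with hm | hm
  · obtain ⟨G, hG, hG', hv⟩ := two_a hb hab F hF
    refine ⟨G, hG, hG', le_trans (mul_le_mul_of_nonneg_right ?_ hA) hv⟩
    rw [div_le_div_iff₀ (by norm_num) (by linarith)]
    linarith
  · have h1 := two_first hb hab (ξ := 219 / 1000) (by norm_num) (by norm_num)
      (by nlinarith) F hF
    have h2 := two_strip hb hab F hF
    have hL : 0 ≤ area (F.filter (fun Q => Q.s = a)) := area_nonneg _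
    set μ := b / a with hμdef
    set aL := area (F.filter (fun Q => Q.s = a))
    rcases le_total (219 / 1000 * (4 + 2 * μ + 3 * μ ^ 2)) 1 with h | h
    · obtain ⟨G, hG, hG', hv⟩ := h1
      refine ⟨G, hG, hG', le_trans ?_ hv⟩
      have := mul_nonneg (sub_nonneg.2 h) hL
      nlinarith
    · set D := 219 / 1000 * (4 + 2 * μ + 3 * μ ^ 2) - 1 with hD
      have hD0 : 0 ≤ D := by linarith
      have hμ2 : 0 < 1 - μ := by linarith
      have hden : 0 < 1 - μ + D := by linarith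
      obtain ⟨G, hG, hG', hv⟩ := combine (x := (1 - μ) / (1 - μ + D))
        (by positivity) (by rw [div_le_one hden]; linarith) h1 h2
      refine ⟨G, hG, hG', le_trans ?_ hv⟩
      have e1 : (1 - μ) / (1 - μ + D) * (219 / 1000 * area F
          + (1 - 219 / 1000 * (4 + 2 * μ + 3 * μ ^ 2)) / 4 * aL)
          + (1 - (1 - μ) / (1 - μ + D)) * (((1 - μ) * aL + μ * area F) / 4)
          = (219 / 1000 * (1 - μ) + D * μ / 4) / (1 - μ + D) * area F := by
        have h3 : 1 - 219 / 1000 * (4 + 2 * μ + 3 * μ ^ 2) = -D := by rw [hD]; ring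
        rw [h3]
        field_simp
        ring
      rw [e1]
      refine mul_le_mul_of_nonneg_right ?_ hA
      rw [div_le_div_iff₀ (by norm_num) hden, hD]
      nlinarith [mul_nonneg hμ0.le (sq_nonneg (μ - 57 / 100)), sq_nonneg (μ - 57 / 100)]

theorem two_sides2 {a b : ℝ} (hb : 0 < b) (hab : b ≤ a) (F : Finset Sq)
    (hF : ∀ Q ∈ F, Q.s = a ∨ Q.s = b) :
    ∃ G ⊆ F, NonOv G ∧ kap2 (b / a) * area F ≤ area G := by
  have hA : 0 ≤ area F := area_nonneg F
  unfold kap2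
  rcases max_cases (37 / 200 : ℝ) (max ((b / a) / (2 * (1 + b / a)))
    (if b / a ≤ 1 / 2 then (b / a) / 4 + (1 - b / a) ^ 2
      / (4 - 2 * (b / a) + 3 * (b / a) ^ 2) else 0)) with ⟨h, -⟩ | ⟨h, -⟩
  · rw [h]
    obtain ⟨G, hG, hG', hv⟩ := two_c hb hab F hF
    exact ⟨G, hG, hG'.nonOv, hv⟩
  · rw [h]
    rcases max_cases ((b / a) / (2 * (1 + b / a)))
      (if b / a ≤ 1 / 2 then (b / a) / 4 + (1 - b / a) ^ 2
        / (4 - 2 * (b / a) + 3 * (b / a) ^ 2) else 0) with ⟨h, -⟩ | ⟨h, -⟩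
    · rw [h]
      obtain ⟨G, hG, hG', hv⟩ := two_a hb hab F hF
      exact ⟨G, hG, hG'.nonOv, hv⟩
    · rw [h]
      split_ifs with hμ
      · obtain ⟨G, hG, hG', hv⟩ := two_b hb hab hμ F hF
        exact ⟨G, hG, hG'.nonOv, hv⟩
      · obtain ⟨G, hG, hG', hv⟩ := two_c hb hab F hF
        exact ⟨G, hG, hG'.nonOv, by nlinarith⟩

end Pool.Agent.Helper14.FracRado
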